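import Pool.Agent.Helper14_QB.AlgB

/-!
# app3: `betaB`: returns cannot all lie in the normaliser
Two integral traces force `c = 1`, `o = 1`; then `(δ - 1)²` is a multiple of `e_z ⊗ L`.
-/

set_option autoImplicit false
set_option linter.unusedVariables false
open Matrix Polynomial MeasureTheory Set Filter Topology

namespace QL.H97B

open QL.H14

set_option linter.unusedSimpArgs false in
theorem delta_blocks {d : ℕ} (B o : Matrix (Fin d) (Fin d) ℝ) (w : Fin d → ℝ) (b c : ℝ) :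
    uB B w * oB o * aB d c * vB d b =
      fromBlocks o (Matrix.of fun i j => if j = 0 then c * w i else 0)
      (Matrix.of fun i j => if i = 0 then 0 else -2 * ((B *ᵥ w) ᵥ* o) j)
      !![c, 0; -(w ⬝ᵥ B *ᵥ w) * c + c⁻¹ * b, c⁻¹] := by
  have hu : uB B w = fromBlocks 1 (Matrix.of fun i j => if j = 0 then w i else 0)
      (Matrix.of fun i j => if i = 0 then 0 else -2 * (B *ᵥ w) j)
      !![1, 0; -(w ⬝ᵥ B *ᵥ w), 1] := rfl
  rw [Matrix.mul_assoc _ (aB d c), av_blocks, Matrix.mul_assoc, oB, fromBlocks_multiply, hu,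
    fromBlocks_multiply]
  congr 1
  · simp
  · ext i j
    fin_cases j <;> simp [mul_apply, mul_comm]
  · ext i j
    fin_cases i
    · simp [mul_apply]
    · simp [mul_apply, vecMul, dotProduct, Finset.mul_sum, mul_assoc]
  · ext i j
    fin_cases i <;> fin_cases j <;> simp [mul_apply, Fin.sum_univ_two]

theorem trace_blk {d : ℕ} (A : Matrix (Fin d) (Fin d) ℝ) (X : Matrix (Fin d) (Fin 2) ℝ)
    (Y : Matrix (Fin 2) (Fin d) ℝ) (D : Matrix (Fin 2) (Fin 2) ℝ) :
    (fromBlocks A X Y D).trace = A.trace + D.trace := by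
  simp [trace, Fintype.sum_sum_type]

set_option linter.unusedSimpArgs false in
theorem trace_delta {d : ℕ} (B o : Matrix (Fin d) (Fin d) ℝ) (w : Fin d → ℝ) (b c : ℝ) :
    (uB B w * oB o * aB d c * vB d b).trace = o.trace + (c + c⁻¹) := by
  rw [delta_blocks, trace_blk]
  simp [trace, Fin.sum_univ_two]

theorem trace_delta2 {d : ℕ} (B o : Matrix (Fin d) (Fin d) ℝ) (w : Fin d → ℝ) (b c : ℝ) :
    ((uB B w * oB o * aB d c * vB d b) * (uB B w * oB o * aB d c * vB d b)).trace =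
      (o * o).trace + (c ^ 2 + (c⁻¹) ^ 2) := by
  rw [delta_blocks, fromBlocks_multiply, trace_blk, trace_add, trace_add]
  have h1 : ((Matrix.of fun i j => if j = 0 then c * w i else 0 : Matrix (Fin d) (Fin 2) ℝ) *
      (Matrix.of fun i j => if i = 0 then 0 else -2 * ((B *ᵥ w) ᵥ* o) j
        : Matrix (Fin 2) (Fin d) ℝ)) = 0 := by
    ext i j
    simp [mul_apply, Fin.sum_univ_two]
  rw [trace_mul_comm (Matrix.of fun i j => if i = 0 then 0 else -2 * ((B *ᵥ w) ᵥ* o) j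
    : Matrix (Fin 2) (Fin d) ℝ), h1]
  simp [trace, Fin.sum_univ_two, mul_apply]
  ring

/-- Hilbert-Schmidt norm -/
theorem hs_nonneg {d : ℕ} (M : Matrix (Fin d) (Fin d) ℝ) : 0 ≤ (Mᵀ * M).trace := by
  unfold trace
  refine Finset.sum_nonneg fun i _ => ?_
  rw [diag_apply, mul_apply]
  exact Finset.sum_nonneg fun j _ => by rw [transpose_apply]; exact mul_self_nonneg _

theorem hs_zero {d : ℕ} (M : Matrix (Fin d) (Fin d) ℝ) (h : (Mᵀ * M).trace = 0) : M = 0 := by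
  unfold trace at h
  have hn : ∀ i ∈ Finset.univ, 0 ≤ (Mᵀ * M).diag i := by
    intro i _
    rw [diag_apply, mul_apply]
    exact Finset.sum_nonneg fun j _ => by rw [transpose_apply]; exact mul_self_nonneg _
  ext j i
  have h1 := (Finset.sum_eq_zero_iff_of_nonneg hn).1 h i (Finset.mem_univ i)
  rw [diag_apply, mul_apply] at h1
  have h2 := (Finset.sum_eq_zero_iff_of_nonneg (fun j _ => by
    rw [transpose_apply]; exact mul_self_nonneg _)).1 h1 j (Finset.mem_univ j)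
  rw [transpose_apply] at h2
  exact mul_self_eq_zero.1 h2

/-- the definite case -/
theorem orth_case {d : ℕ} (o : Matrix (Fin d) (Fin d) ℝ) (c : ℝ) (hc : 0 < c) (ho : oᵀ * o = 1)
    (h1 : o.trace + (c + c⁻¹) = d + 2) (h2 : (o * o).trace + (c ^ 2 + (c⁻¹) ^ 2) = d + 2) :
    c = 1 ∧ o = 1 := by
  have ho' : o * oᵀ = 1 := mul_eq_one_comm.1 ho
  have hcc : c * c⁻¹ = 1 := mul_inv_cancel₀ hc.ne'
  set A : ℝ := c + c⁻¹ - 2 with hA
  have t1 : o.trace = d - A := by rw [hA]; linarith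
  have t2 : (o * o).trace = d - (A ^ 2 + 4 * A) := by
    have : c ^ 2 + (c⁻¹) ^ 2 = (A + 2) ^ 2 - 2 := by rw [hA]; nlinarith
    linarith [this]
  have t1' : oᵀ.trace = d - A := by rw [trace_transpose, t1]
  have t2' : (oᵀ * oᵀ).trace = d - (A ^ 2 + 4 * A) := by
    rw [← transpose_mul, trace_transpose, t2]
  have td : (1 : Matrix (Fin d) (Fin d) ℝ).trace = d := by simp
  have key : (((o - 1) * (o - 1))ᵀ * ((o - 1) * (o - 1))).trace = -2 * A ^ 2 := by
    have e : ((o - 1) * (o - 1))ᵀ * ((o - 1) * (o - 1)) =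
        (6 : ℝ) • 1 - (4 : ℝ) • o - (4 : ℝ) • oᵀ + o * o + oᵀ * oᵀ := by
      have e1 : ((o - 1) * (o - 1))ᵀ = oᵀ * oᵀ - (2 : ℝ) • oᵀ + 1 := by
        rw [transpose_mul, transpose_sub, transpose_one, sub_mul, mul_sub, mul_sub]
        simp only [Matrix.one_mul, Matrix.mul_one]
        rw [two_smul]
        abel
      have e2 : (o - 1) * (o - 1) = o * o - (2 : ℝ) • o + 1 := by
        rw [sub_mul, mul_sub, mul_sub]
        simp only [Matrix.one_mul, Matrix.mul_one]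
        rw [two_smul]
        abel
      rw [e1, e2]
      have a1 : oᵀ * oᵀ * (o * o) = 1 := by
        rw [Matrix.mul_assoc, ← Matrix.mul_assoc oᵀ o o, ho, Matrix.one_mul, ho]
      have a2 : oᵀ * oᵀ * o = oᵀ := by rw [Matrix.mul_assoc, ho, Matrix.mul_one]
      have a3 : oᵀ * (o * o) = o := by rw [← Matrix.mul_assoc, ho, Matrix.one_mul]
      simp only [add_mul, sub_mul, mul_add, mul_sub, Matrix.smul_mul, Matrix.mul_smul, a1, a2, a3,
        ho, Matrix.one_mul, Matrix.mul_one]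
      module
    rw [e]
    simp only [trace_add, trace_sub, trace_smul, t1, t2, t1', t2', td, smul_eq_mul]
    ring
  have hA0 : A = 0 := by
    have := hs_nonneg ((o - 1) * (o - 1))
    rw [key] at this
    have h3 : A ^ 2 = 0 := le_antisymm (by linarith) (sq_nonneg A)
    exact pow_eq_zero_iff (two_ne_zero) |>.1 h3
  have hc1 : c = 1 := by
    have h3 : c + c⁻¹ = 2 := by rw [hA] at hA0; linarith
    have h4 : (c - 1) ^ 2 = 0 := by
      have : (c - 1) ^ 2 = c * (c + c⁻¹ - 2) - (c * c⁻¹ - 1) := by ring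
      rw [this, h3, hcc]; ring
    have := pow_eq_zero_iff (two_ne_zero) |>.1 h4
    linarith
  refine ⟨hc1, ?_⟩
  have h5 : ((o - 1)ᵀ * (o - 1)).trace = 0 := by
    have e : (o - 1)ᵀ * (o - 1) = (2 : ℝ) • 1 - o - oᵀ := by
      rw [transpose_sub, transpose_one, sub_mul, mul_sub, mul_sub, ho]
      simp only [Matrix.one_mul, Matrix.mul_one]
      rw [two_smul]
      abel
    rw [e]
    simp only [trace_sub, trace_smul, t1, t1', td, smul_eq_mul, hA0]
    ring
  exact sub_eq_zero.1 (hs_zero _ h5)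

/-- the swap case -/
theorem swap_case {B : Matrix (Fin 2) (Fin 2) ℝ} (hB : ∀ i j, B i j = if i = j then 0 else 1)
    (o : Matrix (Fin 2) (Fin 2) ℝ) (c : ℝ) (hc : 0 < c) (ho : oᵀ * B * o = B)
    (h00 : 0 < o 0 0) (h11 : 0 < o 1 1)
    (h1 : o.trace + (c + c⁻¹) = 2 + 2) : c = 1 ∧ o = 1 := by
  have e (i j : Fin 2) : (oᵀ * B * o) i j = o 0 i * o 1 j + o 1 i * o 0 j := by
    simp only [mul_apply, Fin.sum_univ_two, transpose_apply, hB]
    simp
    ring
  have e00 : o 0 0 * o 1 0 + o 1 0 * o 0 0 = 0 := by rw [← e 0 0, ho, hB]; simp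
  have e11 : o 0 1 * o 1 1 + o 1 1 * o 0 1 = 0 := by rw [← e 1 1, ho, hB]; simp
  have e01 : o 0 0 * o 1 1 + o 1 0 * o 0 1 = 1 := by rw [← e 0 1, ho, hB]; simp
  have z10 : o 1 0 = 0 := by
    have : o 0 0 * o 1 0 = 0 := by linarith
    exact (mul_eq_zero.1 this).resolve_left h00.ne'
  have z01 : o 0 1 = 0 := by
    have : o 1 1 * o 0 1 = 0 := by linarith
    exact (mul_eq_zero.1 this).resolve_left h11.ne'
  rw [z10] at e01
  have e01' : o 0 0 * o 1 1 = 1 := by linarith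
  have hcc : c * c⁻¹ = 1 := mul_inv_cancel₀ hc.ne'
  have hci : 0 < c⁻¹ := inv_pos.2 hc
  have ht : o.trace = o 0 0 + o 1 1 := by simp [trace, Fin.sum_univ_two]
  rw [ht] at h1
  have i1 : 2 ≤ c + c⁻¹ := by nlinarith [sq_nonneg (c - c⁻¹), sq_nonneg (c + c⁻¹)]
  have i2 : 2 ≤ o 0 0 + o 1 1 := by
    nlinarith [sq_nonneg (o 0 0 - o 1 1), sq_nonneg (o 0 0 + o 1 1)]
  have j1 : c + c⁻¹ = 2 := by linarith
  have j2 : o 0 0 + o 1 1 = 2 := by linarith
  have k1 : (c - 1) ^ 2 = 0 := by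
    have : (c - 1) ^ 2 = c * (c + c⁻¹ - 2) - (c * c⁻¹ - 1) := by ring
    rw [this, j1, hcc]; ring
  have k2 : (o 0 0 - 1) ^ 2 = 0 := by
    have h : o 1 1 = 2 - o 0 0 := by linarith
    rw [h] at e01'
    nlinarith
  have c1 : c = 1 := by
    have := pow_eq_zero_iff (two_ne_zero) |>.1 k1
    linarith
  have o1 : o 0 0 = 1 := by
    have := pow_eq_zero_iff (two_ne_zero) |>.1 k2
    linarith
  refine ⟨c1, ?_⟩
  ext i j
  fin_cases i <;> fin_cases j
  · simpa using o1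
  · simpa using z01
  · simpa using z10
  · simp
    linarith

theorem delta_sq {d : ℕ} (B : Matrix (Fin d) (Fin d) ℝ) (w : Fin d → ℝ) (b : ℝ) :
    (uB B w * oB 1 * aB d 1 * vB d b - 1) * (uB B w * oB 1 * aB d 1 * vB d b - 1) =
      (-2 * (w ⬝ᵥ B *ᵥ w)) • vecMulVec (Pi.single (Sum.inr 1) 1) (LB d) := by
  have h : uB B w * oB 1 * aB d 1 * vB d b - 1 =
      fromBlocks 0 (Matrix.of fun i j => if j = 0 then w i else 0)
      (Matrix.of fun i j => if i = 0 then 0 else -2 * (B *ᵥ w) j)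
      !![0, 0; -(w ⬝ᵥ B *ᵥ w) + b, 0] := by
    rw [delta_blocks, ← fromBlocks_one, sub_eq_add_neg, fromBlocks_neg, fromBlocks_add]
    congr 1
    · simp
    · ext i j
      fin_cases j <;> simp
    · ext i j
      fin_cases i <;> simp
    · ext i j
      fin_cases i <;> fin_cases j <;> simp
  have hr : (-2 * (w ⬝ᵥ B *ᵥ w)) • vecMulVec (Pi.single (Sum.inr 1) 1) (LB d) =
      (fromBlocks 0 0 0 !![0, 0; -2 * (w ⬝ᵥ B *ᵥ w), 0] : M3 d) := by
    ext i j
    rcases i with i | i <;> rcases j with j | j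
    · simp [LB, vecMulVec_apply]
    · simp [LB, vecMulVec_apply]
    · simp [LB, vecMulVec_apply]
    · fin_cases i <;> fin_cases j <;> simp [LB, vecMulVec_apply]
  rw [h, hr, fromBlocks_multiply]
  have key : (∑ x, (B *ᵥ w) x * w x) = w ⬝ᵥ B *ᵥ w := by
    rw [dotProduct_comm]
    rfl
  congr 1
  · ext i j
    simp [mul_apply, Fin.sum_univ_two]
  · ext i j
    fin_cases j <;> simp [mul_apply]
  · ext i j
    fin_cases i
    · simp
    · simp
      right
      rfl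
  · ext i j
    fin_cases i <;> fin_cases j <;> simp [mul_apply]
    rw [← key, Finset.mul_sum]
    exact Finset.sum_congr rfl fun _ _ => by ring

theorem int_limit {u : ℕ → ℝ} {m : ℤ} (hu : Tendsto u atTop (𝓝 (m : ℝ)))
    (hi : ∀ᶠ i in atTop, ∃ k : ℤ, u i = k) : ∀ᶠ i in atTop, u i = m := by
  have h1 : ∀ᶠ i in atTop, |u i - m| < 1 := by
    have := Metric.tendsto_nhds.1 hu 1 one_pos
    simpa [Real.dist_eq] using this
  filter_upwards [h1, hi] with i h2 h3
  obtain ⟨k, hk⟩ := h3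
  rw [hk] at h2 ⊢
  have h4 : |k - m| < 1 := by exact_mod_cast h2
  have h5 : k - m = 0 := Int.abs_lt_one_iff.1 h4
  have h6 : k = m := by omega
  rw [h6]

theorem int_trace {ι : Type} [Fintype ι] [DecidableEq ι] {γ : Matrix ι ι ℝ} (h : γ ∈ Gam ι) :
    ∃ m : ℤ, γ.trace = m := by
  choose f hf using h.2
  refine ⟨∑ i, f i i, ?_⟩
  push_cast
  exact Finset.sum_congr rfl fun i _ => hf i i

theorem gam_mul {ι : Type} [Fintype ι] [DecidableEq ι] {γ γ' : Matrix ι ι ℝ} (h : γ ∈ Gam ι)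
    (h' : γ' ∈ Gam ι) : γ * γ' ∈ Gam ι := by
  refine ⟨by rw [det_mul, h.1, h'.1, one_mul], fun i j => ?_⟩
  choose f hf using h.2
  choose f' hf' using h'.2
  refine ⟨∑ k, f i k * f' k j, ?_⟩
  push_cast
  rw [mul_apply]
  exact Finset.sum_congr rfl fun k _ => by rw [hf, hf']

theorem betaB (hst : structBStatement) : betaBStatement := by
  intro d hd B hB x hx hT v T hTt ω hω hv γ hγ g hg hdet heq hf
  obtain ⟨i0, o, w, b, c, ho1, hw0, hb0, hc1, hform⟩ := hst d hd B hB g hg hdet hf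
  have hs := goodB_symm hB
  have hxu : IsUnit x.det := by rw [hx]; exact isUnit_one
  have hxi : x⁻¹ * x = 1 := nonsing_inv_mul x hxu
  have hxi' : x * x⁻¹ = 1 := mul_nonsing_inv x hxu
  let δ : ℕ → M3 d := fun i => uB B (w i - v i) * oB (o i) * aB d (c i) * vB d (b i)
  have hxγ : ∀ i ≥ i0, x * γ i = δ i * x := by
    intro i hi
    obtain ⟨_, _, hgi⟩ := hform i hi
    have h1 : uB B (-(v i)) * (uB B (v i) * x * γ i) = uB B (-(v i)) * (g i * x) := by
      rw [heq i]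
    have h2 : uB B (-(v i)) * uB B (v i) = 1 := by rw [← uB_add hs, neg_add_cancel, uB_zero]
    rw [Matrix.mul_assoc (uB B (v i)), ← Matrix.mul_assoc (uB B (-(v i))) (uB B (v i)), h2,
      Matrix.one_mul, hgi] at h1
    rw [h1]
    show _ = uB B (w i - v i) * oB (o i) * aB d (c i) * vB d (b i) * x
    rw [sub_eq_neg_add, uB_add hs]
    simp only [Matrix.mul_assoc]
  have hγδ : ∀ i ≥ i0, γ i = x⁻¹ * (δ i * x) := by
    intro i hi
    rw [← hxγ i hi, ← Matrix.mul_assoc, hxi, Matrix.one_mul]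
  have htr1 : ∀ i ≥ i0, (γ i).trace = (o i).trace + (c i + (c i)⁻¹) := by
    intro i hi
    rw [hγδ i hi, trace_mul_comm, Matrix.mul_assoc, hxi', Matrix.mul_one]
    exact trace_delta _ _ _ _ _
  have htr2 : ∀ i ≥ i0, (γ i * γ i).trace = (o i * o i).trace + ((c i) ^ 2 + ((c i)⁻¹) ^ 2) := by
    intro i hi
    have h1 : γ i * γ i = x⁻¹ * (δ i * δ i * x) := by
      rw [Matrix.mul_assoc (δ i), ← hxγ i hi, ← Matrix.mul_assoc (δ i), ← hxγ i hi,
        Matrix.mul_assoc x, ← Matrix.mul_assoc, hxi, Matrix.one_mul]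
    rw [h1, trace_mul_comm, Matrix.mul_assoc, hxi', Matrix.mul_one]
    exact trace_delta2 _ _ _ _ _
  have hci : Tendsto (fun i => (c i)⁻¹) atTop (𝓝 1) := by
    simpa using hc1.inv₀ one_ne_zero
  have lim1 : Tendsto (fun i => (o i).trace + (c i + (c i)⁻¹)) atTop
      (𝓝 (((d + 2 : ℕ) : ℤ) : ℝ)) := by
    have h1 : Tendsto (fun i => (o i).trace) atTop
        (𝓝 ((1 : Matrix (Fin d) (Fin d) ℝ).trace)) :=
      (continuous_id.matrix_trace.tendsto (1 : Matrix (Fin d) (Fin d) ℝ)).comp ho1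
    have h2 := h1.add (hc1.add hci)
    have e : (1 : Matrix (Fin d) (Fin d) ℝ).trace + (1 + 1) = (((d + 2 : ℕ) : ℤ) : ℝ) := by
      rw [trace_one]
      push_cast
      simp
      norm_num
    rw [← e]
    exact h2
  have lim2 : Tendsto (fun i => (o i * o i).trace + ((c i) ^ 2 + ((c i)⁻¹) ^ 2)) atTop
      (𝓝 (((d + 2 : ℕ) : ℤ) : ℝ)) := by
    have h0 : Tendsto (fun i => o i * o i) atTop (𝓝 (1 * 1)) := ho1.mul ho1
    rw [one_mul] at h0
    have h1 : Tendsto (fun i => (o i * o i).trace) atTop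
        (𝓝 ((1 : Matrix (Fin d) (Fin d) ℝ).trace)) :=
      (continuous_id.matrix_trace.tendsto (1 : Matrix (Fin d) (Fin d) ℝ)).comp h0
    have h2 := h1.add ((hc1.pow 2).add (hci.pow 2))
    have e : (1 : Matrix (Fin d) (Fin d) ℝ).trace + (1 ^ 2 + 1 ^ 2) =
        (((d + 2 : ℕ) : ℤ) : ℝ) := by
      rw [trace_one]
      push_cast
      simp
      norm_num
    rw [← e]
    exact h2
  have ev1 := int_limit lim1 (by
    filter_upwards [eventually_ge_atTop i0] with i hi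
    obtain ⟨m, hm⟩ := int_trace (hγ i)
    exact ⟨m, by rw [← htr1 i hi, hm]⟩)
  have ev2 := int_limit lim2 (by
    filter_upwards [eventually_ge_atTop i0] with i hi
    obtain ⟨m, hm⟩ := int_trace (gam_mul (hγ i) (hγ i))
    exact ⟨m, by rw [← htr2 i hi, hm]⟩)
  have ev3 : ∀ j : Fin d, ∀ᶠ i in atTop, 0 < o i j j := by
    intro j
    have h1 : Tendsto (fun i => o i j j) atTop (𝓝 ((1 : Matrix (Fin d) (Fin d) ℝ) j j)) := by
      have := (continuous_id.matrix_elem j j).tendsto (1 : Matrix (Fin d) (Fin d) ℝ)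
      exact this.comp ho1
    rw [one_apply_eq] at h1
    exact h1.eventually (lt_mem_nhds one_pos)
  have ev4 : ∀ᶠ i in atTop, (w i - v i) ⬝ᵥ B *ᵥ (w i - v i) ≠ 0 := by
    have hTi : Tendsto (fun i => (T i)⁻¹) atTop (𝓝 0) := tendsto_inv_atTop_zero.comp hTt
    have h1 : Tendsto (fun i => (T i)⁻¹ • (w i - v i)) atTop (𝓝 (-ω)) := by
      have h2 := (hTi.smul hw0).sub hv
      simp only [zero_smul, zero_sub] at h2
      refine h2.congr fun i => ?_
      rw [smul_sub]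
    have h3 : Continuous (fun u : Fin d → ℝ => u ⬝ᵥ B *ᵥ u) := by fun_prop
    have h4 := (h3.tendsto (-ω)).comp h1
    have h5 : (-ω) ⬝ᵥ B *ᵥ (-ω) ≠ 0 := by
      rw [mulVec_neg, neg_dotProduct_neg]
      exact hω
    filter_upwards [h4.eventually_ne h5] with i hi h6
    apply hi
    show ((T i)⁻¹ • (w i - v i)) ⬝ᵥ B *ᵥ ((T i)⁻¹ • (w i - v i)) = 0
    rw [mulVec_smul, smul_dotProduct, dotProduct_smul, h6, smul_zero, smul_zero]
  obtain ⟨i, hi0, h1, h2, h3, h4⟩ := ((eventually_ge_atTop i0).and (ev1.and (ev2.and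
    ((eventually_all.2 ev3).and ev4)))).exists
  obtain ⟨hcpos, hoB, hgi⟩ := hform i hi0
  have hco : c i = 1 ∧ o i = 1 := by
    rcases hB with hB | ⟨hd2, hB⟩
    · apply orth_case (o i) (c i) hcpos
      · rw [hB, Matrix.mul_one] at hoB
        exact hoB
      · rw [h1]; push_cast; ring
      · rw [h2]; push_cast; ring
    · subst hd2
      apply swap_case hB (o i) (c i) hcpos hoB (h3 0) (h3 1)
      rw [h1]; push_cast; ring
  have hδi : δ i = uB B (w i - v i) * oB 1 * aB d 1 * vB d (b i) := by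
    show uB B (w i - v i) * oB (o i) * aB d (c i) * vB d (b i) = _
    rw [hco.1, hco.2]
  have hsq : (γ i - 1) * (γ i - 1) = (-2 * ((w i - v i) ⬝ᵥ B *ᵥ (w i - v i))) •
      vecMulVec (x⁻¹ *ᵥ Pi.single (Sum.inr 1) 1) (LB d ᵥ* x) := by
    have e1 : γ i - 1 = x⁻¹ * (δ i - 1) * x := by
      rw [mul_sub, sub_mul, Matrix.mul_one, hxi, Matrix.mul_assoc, ← hγδ i hi0]
    have e2 : (γ i - 1) * (γ i - 1) = x⁻¹ * ((δ i - 1) * (δ i - 1)) * x := by
      rw [e1]
      calc x⁻¹ * (δ i - 1) * x * (x⁻¹ * (δ i - 1) * x)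
          = x⁻¹ * (δ i - 1) * (x * x⁻¹) * (δ i - 1) * x := by simp only [Matrix.mul_assoc]
        _ = _ := by rw [hxi', Matrix.mul_one]; simp only [Matrix.mul_assoc]
    rw [e2, hδi, delta_sq, Matrix.mul_smul, Matrix.smul_mul, Matrix.mul_vecMulVec,
      Matrix.vecMulVec_mul]
  have hez : ∃ r, (x⁻¹ *ᵥ (Pi.single (Sum.inr 1) 1 : I3 d → ℝ)) r ≠ 0 := by
    by_contra hcon
    push Not at hcon
    have h5 : x⁻¹ *ᵥ (Pi.single (Sum.inr 1) 1 : I3 d → ℝ) = 0 := funext hcon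
    have h6 : (Pi.single (Sum.inr 1) 1 : I3 d → ℝ) = 0 := by
      have h55 : x *ᵥ (x⁻¹ *ᵥ (Pi.single (Sum.inr 1) 1 : I3 d → ℝ)) = x *ᵥ 0 := by rw [h5]
      rwa [mulVec_mulVec, hxi', one_mulVec, mulVec_zero] at h55
    have h7 := congrFun h6 (Sum.inr 1)
    simp at h7
  obtain ⟨r, hr⟩ := hez
  choose f hfi using (hγ i).2
  have hint : ∀ j, ∃ m : ℤ, ((γ i - 1) * (γ i - 1)) r j = m := by
    intro j
    refine ⟨∑ k, (f r k - if r = k then 1 else 0) * (f k j - if k = j then 1 else 0), ?_⟩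
    push_cast
    rw [mul_apply]
    refine Finset.sum_congr rfl fun k _ => ?_
    rw [Matrix.sub_apply, Matrix.sub_apply, hfi, hfi, one_apply, one_apply]
  choose m hm using hint
  have hrow : iv m = (-2 * ((w i - v i) ⬝ᵥ B *ᵥ (w i - v i)) *
      (x⁻¹ *ᵥ (Pi.single (Sum.inr 1) 1 : I3 d → ℝ)) r) • (LB d ᵥ* x) := by
    funext j
    show ((m j : ℤ) : ℝ) = _
    rw [← hm j, hsq]
    simp [vecMulVec_apply, mul_assoc]
  refine hT m ?_ ⟨_, hrow⟩
  rintro rfl
  have hne : -2 * ((w i - v i) ⬝ᵥ B *ᵥ (w i - v i)) *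
      (x⁻¹ *ᵥ (Pi.single (Sum.inr 1) 1 : I3 d → ℝ)) r ≠ 0 :=
    mul_ne_zero (mul_ne_zero (by norm_num) h4) hr
  have h8 : LB d ᵥ* x = 0 := by
    have h9 : (0 : I3 d → ℝ) = (-2 * ((w i - v i) ⬝ᵥ B *ᵥ (w i - v i)) *
      (x⁻¹ *ᵥ (Pi.single (Sum.inr 1) 1 : I3 d → ℝ)) r) • (LB d ᵥ* x) := by
      rw [← hrow]
      funext j
      simp [iv]
    exact (smul_eq_zero.1 h9.symm).resolve_left hne
  have h10 : LB d = 0 := by
    have := congrArg (fun u => u ᵥ* x⁻¹) h8
    simpa [vecMul_vecMul, hxi'] using this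
  have h11 := congrFun h10 (Sum.inr 0)
  simp [LB] at h11

end QL.H97B
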