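import Pool.Agent.Helper97_QL.NL
import Pool.Agent.Helper27_QL.StmtApp3
import Pool.Agent.Helper60_QL.Limit
import Pool.Agent.Helper9_QL.Asym

/-!
# QL app3: the limit step `limitB`
-/

set_option autoImplicit false
open Matrix Polynomial MeasureTheory Set Filter Topology

namespace QL.H97

open QL

theorem GoodB_symm {d : ℕ} {B : Matrix (Fin d) (Fin d) ℝ} (h : GoodB d B) : Bᵀ = B := by
  rcases h with h | ⟨-, h⟩
  · rw [h, Matrix.transpose_one]
  · ext i j
    rw [Matrix.transpose_apply, h, h]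
    by_cases hij : i = j
    · subst hij; rfl
    · rw [if_neg hij, if_neg (Ne.symm hij)]

/-- thickness: nonzero integer tensors of bounded size stay away from the tubes -/
theorem exists_delta {ι : Type} [Fintype ι] [DecidableEq ι] (L : List (Tube ι))
    (x : Matrix ι ι ℝ) (hx : x ∈ ns L) (R : ℝ) : ∃ δ : ℝ, 0 < δ ∧ ∀ T ∈ L,
      ∀ w : (Fin T.k → ι) → ℤ, w ≠ 0 →
        (∃ c, R ≤ |ract false T.k x (iv w) c|) ∨
        (∃ c, δ ≤ |T.Pi (ract false T.k x (iv w)) c|) := by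
  have h1 : ∀ T ∈ L, ∀ᶠ δ in 𝓝[>] (0 : ℝ), ∀ w ∈ {w : (Fin T.k → ι) → ℤ |
      ∀ c, |ract false T.k x (iv w) c| ≤ R}, w ≠ 0 →
        ∃ c, δ ≤ |T.Pi (ract false T.k x (iv w)) c| := by
    intro T hT
    rw [Filter.eventually_all_finite (H60.fin_bdd false T.k x hx.1 R)]
    intro w _
    by_cases hw : w = 0
    · exact Filter.Eventually.of_forall fun δ h => absurd hw h
    · have h2 : T.Pi (ract false T.k x (iv w)) ≠ 0 := fun h => hx.2 T hT ⟨w, hw, h⟩
      obtain ⟨c, hc⟩ := Function.ne_iff.1 h2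
      have h3 : ∀ᶠ δ in 𝓝[>] (0 : ℝ), δ < |T.Pi (ract false T.k x (iv w)) c| :=
        nhdsWithin_le_nhds (gt_mem_nhds (abs_pos.2 hc))
      exact h3.mono fun δ hδ _ => ⟨c, hδ.le⟩
  have h2 : ∀ᶠ δ in 𝓝[>] (0 : ℝ), ∀ T ∈ {T | T ∈ L}, ∀ w ∈ {w : (Fin T.k → ι) → ℤ |
      ∀ c, |ract false T.k x (iv w) c| ≤ R}, w ≠ 0 →
        ∃ c, δ ≤ |T.Pi (ract false T.k x (iv w)) c| := by
    rw [Filter.eventually_all_finite (List.finite_toSet L)]
    exact h1
  obtain ⟨δ, hδ, hδ0⟩ := (h2.and self_mem_nhdsWithin).exists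
  refine ⟨δ, hδ0, fun T hT w hw => ?_⟩
  by_cases h : ∃ c, R ≤ |ract false T.k x (iv w) c|
  · exact Or.inl h
  · push Not at h
    exact Or.inr (hδ T hT w (fun c => (h c).le) hw)

theorem tendsto_qB {d : ℕ} (B : Matrix (Fin d) (Fin d) ℝ) {α : Type*} {l : Filter α}
    {b c : α → ℝ} {b0 c0 : ℝ} (hb : Tendsto b l (𝓝 b0)) (hc : Tendsto c l (𝓝 c0)) :
    Tendsto (fun a => qB B (b a) (c a)) l (𝓝 (qB B b0 c0)) := by
  unfold qB
  exact (tendsto_const_nhds.add (hb.smul tendsto_const_nhds)).prodMk_nhds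
    (hc.smul tendsto_const_nhds)

theorem limitB (hNL : NL_seq2Statement) (hnd : nd_pathStatement) (hray : UAct_rayStatement)
    (hasym : asymBStatement) (halg : algBStatement) (hfacts : TLB_factsStatement) :
    limitBStatement := by
  classical
  intro d hd B hB S hS U hU Y hY x hx b c hC o ho
  obtain ⟨hb0, hc0, hne, hDD⟩ := hC
  obtain ⟨-, -, -, -, -, -, ha7, ha8, -, -, -, -, -, -, ha15, ha16⟩ := halg d B (GoodB_symm hB)
  obtain ⟨hUniq, -, -⟩ := hfacts d hd B hB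
  have hxdet : x.det = 1 := hx.2.1
  have hcne : c ≠ 0 := by
    rintro rfl
    simp at hc0
  obtain ⟨t0, ht0⟩ := (H9.ev_ne hcne).exists_forall_of_atTop
  set t : ℕ → ℝ := fun m => t0 + m with ht
  have htc : ∀ m, c.eval (t m) ≠ 0 := fun m => ht0 _ (by simp [ht])
  have htt : Tendsto t atTop atTop :=
    tendsto_atTop_add_const_left _ _ tendsto_natCast_atTop_atTop
  set g0 : ℕ → M3 d := fun m => oB (o (t m)) * aB d (c.eval (t m)) * vB d (b.eval (t m)) with hg0
  have hg0det : ∀ m, (g0 m).det = 1 := by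
    intro m
    simp only [hg0]
    rw [Matrix.det_mul, Matrix.det_mul, (ho (t m) (htc m)).2.1, ha7 _ (htc m), ha8, one_mul,
      one_mul]
  obtain ⟨θ, hθ⟩ := (H60.goodDir_dense U x hxdet).nonempty
  obtain ⟨D, hD⟩ := hray U
  obtain ⟨κ, hκ, hκ'⟩ := H60.disc_all true (Fintype.card (I3 d)) x hxdet
  have hcard : Fintype.card (I3 d) = d + 2 := by simp [I3]
  -- fixed Pluecker vectors
  have hfix : ∀ m, ∀ k : ℕ, 0 < k → k < Fintype.card (I3 d) → ∀ A : Matrix (I3 d) (Fin k) ℤ,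
      (∃ i : Fin k → I3 d, (A.submatrix i id).det ≠ 0) →
      (∀ w, ∀ i : Fin k → I3 d, ((U.u w * (x * im A)).submatrix i id).det =
        ((x * im A).submatrix i id).det) →
      ∃ i : Fin k → I3 d, κ ≤ |((g0 m * (x * im A)).submatrix i id).det| := by
    intro m k hk0 hk A hA hfixA
    set w : (Fin k → I3 d) → ℤ := fun i => (A.submatrix i id).det with hw
    have hw0 : w ≠ 0 := by
      obtain ⟨i, hi⟩ := hA
      intro h0
      exact hi (congrFun h0 i)
    obtain ⟨c', hc'⟩ := hκ' k hk w hw0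
    have hplx : pl (x * im A) = ract true k x (iv w) := by
      rw [← H60.pl_int]
      exact H60.pl_mul x (im A)
    rw [← hplx] at hc'
    have hPl : PlFix B (x * im A) := by
      refine ⟨⟨c', fun h0 => ?_⟩, fun w' => ?_⟩
      · rw [h0, abs_zero] at hc'
        linarith
      · rw [← hU]
        funext i
        exact hfixA w' i
    have h1 := (ho (t m) (htc m)).2.2.1 k hk0 (by rw [hcard] at hk; exact hk) A hPl
    refine ⟨c', ?_⟩
    have h2 : ((g0 m * (x * im A)).submatrix c' id).det = pl (g0 m * (x * im A)) c' := rfl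
    rw [h2]
    simp only [hg0]
    rw [h1]
    exact hc'
  -- times
  have hT : ∀ m : ℕ, ∃ T : ℝ, ND κ (fun τ => g0 m * U.u ((τ * T) • θ) * x) ∧
      ∀ Tb ∈ TLB B, ∀ w : (Fin Tb.k → I3 d) → ℤ,
        (∃ w', ract false Tb.k (U.u w') (ract false Tb.k x (iv w)) ≠ ract false Tb.k x (iv w)) →
        ∃ τ ∈ Icc (0 : ℝ) 1, ∃ c',
          (m : ℝ) ≤ |ract false Tb.k (g0 m * U.u ((τ * T) • θ) * x) (iv w) c'| := by
    intro m
    obtain ⟨T1, hT1⟩ := hnd U x (g0 m) hxdet (hg0det m) θ hθ κ (hfix m)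
    have hgr : ∀ k : ℕ, ∃ T0 : ℝ, ∀ T ≥ T0,
        ∀ w : (Fin k → I3 d) → ℤ, (∃ w', ract false k (U.u w') (ract false k x (iv w)) ≠
          ract false k x (iv w)) →
        ∃ τ ∈ Icc (0 : ℝ) 1, ∃ c', (m : ℝ) ≤
          |ract false k (g0 m * U.u ((τ * T) • θ) * x) (iv w) c'| :=
      fun k => H60.growth U x (g0 m) hxdet (hg0det m) θ hθ false k (m : ℝ)
    choose T2 hT2 using hgr
    obtain ⟨T3, hT3⟩ : ∃ T3 : ℝ, ∀ Tb ∈ TLB B, T2 Tb.k ≤ T3 := by
      have hfin : Set.Finite {Tb | Tb ∈ TLB B} := List.finite_toSet (TLB B)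
      obtain ⟨T3, hT3⟩ := (hfin.image fun Tb => T2 Tb.k).bddAbove
      exact ⟨T3, fun Tb hTb => hT3 ⟨Tb, hTb, rfl⟩⟩
    refine ⟨max T1 T3, hT1 _ (le_max_left _ _), fun Tb hTb w hw => ?_⟩
    exact hT2 Tb.k (max T1 T3) ((hT3 Tb hTb).trans (le_max_right _ _)) w hw
  choose T hTND hTgrow using hT
  have hP : ∀ m, ∃ P : Matrix (I3 d) (I3 d) ℝ[X], (∀ i j, (P i j).natDegree ≤ D) ∧
      ∀ τ, ev P τ = g0 m * U.u ((τ * T m) • θ) * x := fun m => hD (g0 m) x θ (T m)
  choose P hPdeg hPev using hP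
  have hPdet : ∀ m τ, (ev (P m) τ).det = 1 := by
    intro m τ
    rw [hPev, Matrix.det_mul, Matrix.det_mul, hg0det, U.det_one, hxdet, one_mul, one_mul]
  have hPND : ∀ m, ND κ (ev (P m)) := by
    intro m
    have h1 : ev (P m) = fun τ => g0 m * U.u ((τ * T m) • θ) * x := funext fun τ => hPev m τ
    rw [h1]
    exact hTND m
  have hu0 : U.u 0 = 1 := by rw [H60.u_zero]
  have hNe : Nonempty (I3 d) := ⟨Sum.inr 0⟩
  obtain ⟨z, hz, f, hf, τ, hτ, γ, hγ, hlim⟩ := hNL (I3 d) (TLB B) hUniq D κ hκ P hPdeg hPdet hPND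
    (by
    intro R
    obtain ⟨δ, hδ, hδ'⟩ := exists_delta (TLB B) x hx.2 R
    refine ⟨δ, hδ, R, fun m hm Tb hTb w hw => ?_⟩
    by_cases hfx : ∃ w', ract false Tb.k (U.u w') (ract false Tb.k x (iv w)) ≠
        ract false Tb.k x (iv w)
    · obtain ⟨τ, hτ, c', hc'⟩ := hTgrow m Tb hTb w hfx
      refine ⟨τ, hτ, Or.inl ⟨c', ?_⟩⟩
      rw [hPev]
      have : (R : ℝ) ≤ m := by exact_mod_cast hm
      exact this.trans hc'
    · push Not at hfx
      refine ⟨0, ⟨le_rfl, zero_le_one⟩, ?_⟩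
      have h1 := (ho (t m) (htc m)).2.2.2 Tb hTb w (fun v => by rw [← hU]; exact hfx v)
      have h2 : ract false Tb.k (ev (P m) 0) (iv w) = ract false Tb.k x (iv w) := by
        rw [hPev, zero_mul, zero_smul, hu0, mul_one, H60.ract_mul]
        exact h1
      rw [h2]
      exact hδ' Tb hTb w hw)
  -- membership in DD
  have hmem : ∀ m t', (ev (P (f m)) (τ m) * γ m,
      qB B ((b.eval t' - b.eval (t (f m))) / (c.eval (t (f m)))^2)
        (c.eval t' / c.eval (t (f m)))) ∈ DD S := by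
    intro m t'
    have h1 : U.u ((τ m * T (f m)) • θ) * x * γ m ∈ Y :=
      hY.right _ (hγ m) _ (hY.left _ x hx.1)
    have h2 := hDD t' _ h1
    have hdet' := hg0det (f m)
    have hinv : (g0 (f m))⁻¹ * g0 (f m) = 1 :=
      Matrix.nonsing_inv_mul _ (by rw [hdet']; exact isUnit_one)
    have h3 := H60.DD_left h2 hinv
    have h4 : g0 (f m) * (U.u ((τ m * T (f m)) • θ) * x * γ m) =
        ev (P (f m)) (τ m) * γ m := by
      rw [hPev]
      simp only [Matrix.mul_assoc]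
    have h5 : act (qB B (b.eval t') (c.eval t')) (g0 (f m))⁻¹ =
        qB B ((b.eval t' - b.eval (t (f m))) / (c.eval (t (f m)))^2)
          (c.eval t' / c.eval (t (f m))) := by
      have ho1 := ho (t (f m)) (htc (f m))
      have h6 : (g0 (f m))⁻¹ = (aB d (c.eval (t (f m))) * vB d (b.eval (t (f m))))⁻¹ *
          (oB (o (t (f m))))⁻¹ := by
        simp only [hg0]
        rw [Matrix.mul_assoc, Matrix.mul_inv_rev]
      rw [h6, ← H60.act_act, ha16 _ _ _ _ (htc (f m))]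
      set q' := qB B ((b.eval t' - b.eval (t (f m))) / (c.eval (t (f m)))^2)
          (c.eval t' / c.eval (t (f m))) with hq'
      have h7 : act q' (oB (o (t (f m)))) = q' := ha15 _ _ _ ho1.1
      have h8 : oB (o (t (f m))) * (oB (o (t (f m))))⁻¹ = 1 :=
        Matrix.mul_nonsing_inv _ (by rw [ho1.2.1]; exact isUnit_one)
      calc act q' (oB (o (t (f m))))⁻¹ = act (act q' (oB (o (t (f m))))) (oB (o (t (f m))))⁻¹ := by
            rw [h7]
        _ = act q' 1 := by rw [H60.act_act, h8]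
        _ = q' := H60.act_one q'
    rw [h4, h5] at h3
    exact h3
  have htf : Tendsto (fun m => t (f m)) atTop atTop := htt.comp hf.tendsto_atTop
  have hclos : ∀ (s : ℝ → ℝ) (b1 c1 : ℝ),
      Tendsto (fun t => (b.eval (t + s t) - b.eval t) / (c.eval t)^2) atTop (𝓝 b1) →
      Tendsto (fun t => c.eval (t + s t) / c.eval t) atTop (𝓝 c1) → (z, qB B b1 c1) ∈ DD S := by
    intro s b1 c1 h1 h2
    have h3 := tendsto_qB B (h1.comp htf) (h2.comp htf)
    refine (H60.DD_closed hS).mem_of_tendsto (hlim.prodMk_nhds h3) ?_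
    exact Filter.Eventually.of_forall fun m => hmem m (t (f m) + s (t (f m)))
  refine ⟨z, hz, ?_⟩
  rcases hasym b c hcne hne hb0 hc0 with h | ⟨β, h⟩
  · left
    intro r
    obtain ⟨s, h1, h2⟩ := h r
    exact hclos s r 1 h1 h2
  · right
    refine ⟨β, fun l hl => ?_⟩
    obtain ⟨s, h1, h2⟩ := h l hl
    exact hclos s _ l h1 h2

end QL.H97
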