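import Pool.Agent.Helper97_QL.Rad
import Pool.Agent.Helper27_QL.Stmt

/-!
# Nondivergence and linearization (module M5)

The theorem is proved from the Remez inequality, the two interval lemmas, quantitative
nondivergence and the Mahler criterion (hypotheses of the theorems below).
-/

set_option autoImplicit false
open Matrix Polynomial MeasureTheory Set Filter Topology

namespace QL.H97

open QL

/-- statement of M1 -/
def RemezStmt : Prop := ∀ (D : ℕ) (η : ℝ), 0 < η → ∃ c : ℝ, 0 < c ∧ ∀ p : ℝ[X],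
  p.natDegree ≤ D → ∀ a b e : ℝ, a < b → e ∈ Icc a b →
    volume {x ∈ Icc a b | |p.eval x| < c * |p.eval e|} ≤ ENNReal.ofReal (η * (b - a))

/-- statement of the first part of M2 -/
def JcStmt : Prop := ∀ (O : Set ℝ), IsOpen O → ∀ (α β τ τ0 : ℝ), τ ∈ O ∩ Icc α β →
  τ0 ∈ Icc α β → τ0 ∉ O →
    τ ∈ Jc O α β τ ∧ Jc O α β τ ⊆ O ∩ Icc α β ∧ (∃ V, IsOpen V ∧ Jc O α β τ = V ∩ Icc α β) ∧
    (∀ τ' ∈ Jc O α β τ, Jc O α β τ' = Jc O α β τ) ∧
    ∃ a b e : ℝ, a < b ∧ e ∈ Icc a b ∧ e ∈ Icc α β ∧ e ∉ O ∧ Ioo a b ⊆ Jc O α β τ ∧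
      Jc O α β τ ⊆ Icc a b ∧ Icc a b ⊆ Icc α β

/-- statement of the second part of M2 -/
def CoverStmt : Prop := ∀ {κ : Type} (α β : ℝ) (K : Set ℝ), IsCompact K → K ⊆ Icc α β →
  ∀ (I : κ → Set ℝ), (∀ a, ∃ V, IsOpen V ∧ I a = V ∩ Icc α β) → (∀ a, (I a).OrdConnected) →
    K ⊆ ⋃ a, I a →
    ∃ s : Finset κ, K ⊆ ⋃ a ∈ s, I a ∧
      ∑ a ∈ s, volume (I a) ≤ 2 * ENNReal.ofReal (β - α)

/-- statement of M3 -/
def NondivStmt (ι : Type) [Fintype ι] [DecidableEq ι] : Prop :=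
  ∀ (D : ℕ) (κ ε : ℝ), 0 < κ → 0 < ε → ∃ ε1 : ℝ, 0 < ε1 ∧ ∀ P : Matrix ι ι ℝ[X],
    (∀ i j, (P i j).natDegree ≤ D) → (∀ τ, (ev P τ).det = 1) → ND κ (ev P) →
    volume {τ ∈ Icc (0 : ℝ) 1 | ∃ v : ι → ℤ, v ≠ 0 ∧ ∀ i, |(ev P τ *ᵥ iv v) i| < ε1} ≤
      ENNReal.ofReal ε

/-- statement of M4 -/
def MahlerStmt (ι : Type) [Fintype ι] [DecidableEq ι] : Prop :=
  ∀ (ε : ℝ), 0 < ε → ∃ C : ℝ, ∀ g : Matrix ι ι ℝ, g.det = 1 →
      (∀ v : ι → ℤ, v ≠ 0 → ∃ i, ε ≤ |(g *ᵥ iv v) i|) →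
      ∃ γ ∈ Gam ι, ∀ i j, |(g * γ) i j| ≤ C

variable {ι : Type} [Fintype ι] [DecidableEq ι]

/-- uniqueness of small tensors -/
def Uq (T : Tube ι) (r d : ℝ) (x : Matrix ι ι ℝ) : Prop :=
  ∀ w w' : (Fin T.k → ι) → ℤ, w ≠ 0 → w' ≠ 0 →
    ‖rad T.k x (iv w)‖ < r → ‖T.Pi (rad T.k x (iv w))‖ < d →
    ‖rad T.k x (iv w')‖ < r → ‖T.Pi (rad T.k x (iv w'))‖ < d → Dep w w'

/-- neighbourhood of the singular set -/
def Om (T : Tube ι) (r d : ℝ) : Set (Matrix ι ι ℝ) :=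
  {x | ∃ w : (Fin T.k → ι) → ℤ, w ≠ 0 ∧ ‖rad T.k x (iv w)‖ < r ∧
    ‖T.Pi (rad T.k x (iv w))‖ < d}

lemma isOpen_Om (T : Tube ι) (r d : ℝ) : IsOpen (Om T r d) := by
  have : Om T r d = ⋃ w : (Fin T.k → ι) → ℤ, {x | w ≠ 0 ∧ ‖rad T.k x (iv w)‖ < r ∧
      ‖T.Pi (rad T.k x (iv w))‖ < d} := by
    ext x
    simp [Om]
  rw [this]
  refine isOpen_iUnion fun w => ?_
  refine IsOpen.and isOpen_const (IsOpen.and ?_ ?_)
  · exact isOpen_lt (continuous_rad T.k (iv w)).norm continuous_const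
  · exact isOpen_lt (continuous_Pi_rad T (iv w)).norm continuous_const

lemma transport {T : Tube ι} {x γ : Matrix ι ι ℝ} (hγ : γ ∈ Gam ι)
    (w : (Fin T.k → ι) → ℤ) (hw : w ≠ 0) :
    ∃ w' : (Fin T.k → ι) → ℤ, w' ≠ 0 ∧ iv w' = rad T.k γ (iv w) ∧
      rad T.k (x * γ) (iv w) = rad T.k x (iv w') := by
  obtain ⟨w', h⟩ := int_rad hγ w
  refine ⟨w', ?_, h.symm, ?_⟩
  · rintro rfl
    refine rad_ne_zero hγ.1 (iv_ne_zero hw) ?_
    rw [h]
    funext i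
    simp [iv]
  · rw [rad_mul, h]

lemma Om_gam {T : Tube ι} {r d : ℝ} {x γ : Matrix ι ι ℝ} (hγ : γ ∈ Gam ι)
    (h : x * γ ∈ Om T r d) : x ∈ Om T r d := by
  obtain ⟨w, hw, h1, h2⟩ := h
  obtain ⟨w', hw', _, he⟩ := transport (T := T) (x := x) hγ w hw
  rw [he] at h1 h2
  exact ⟨w', hw', h1, h2⟩

lemma Uq_gam {T : Tube ι} {r d : ℝ} {x γ : Matrix ι ι ℝ} (hγ : γ ∈ Gam ι)
    (h : Uq T r d (x * γ)) : Uq T r d x := by
  intro w w' hw hw' h1 h2 h3 h4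
  have hx : x = (x * γ) * γ.adjugate := by
    rw [Matrix.mul_assoc, gam_mul_adj hγ, Matrix.mul_one]
  obtain ⟨v, hv, hve, he⟩ := transport (T := T) (x := x * γ) (gam_adj hγ) w hw
  obtain ⟨v', hv', hve', he'⟩ := transport (T := T) (x := x * γ) (gam_adj hγ) w' hw'
  rw [← hx] at he he'
  rw [he] at h1 h2
  rw [he'] at h3 h4
  obtain ⟨a, b, hab, hd⟩ := h v v' hv hv' h1 h2 h3 h4
  refine ⟨a, b, hab, ?_⟩
  have key : ∀ u : (Fin T.k → ι) → ℤ, rad T.k γ (rad T.k γ.adjugate (iv u)) = iv u := by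
    intro u
    rw [← rad_mul, gam_mul_adj hγ, rad_one]
  have h5 : (a : ℝ) • iv w + (b : ℝ) • iv w' = 0 := by
    rw [← key w, ← key w', ← hve, ← hve', ← rad_smul, ← rad_smul, ← rad_add]
    have : (a : ℝ) • iv v + (b : ℝ) • iv v' = 0 := by
      funext i
      have := congrFun hd i
      simp only [Pi.add_apply, Pi.smul_apply, smul_eq_mul, Pi.zero_apply, iv] at this ⊢
      exact_mod_cast this
    rw [this, rad_zero]
  funext i
  have := congrFun h5 i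
  simp only [Pi.add_apply, Pi.smul_apply, smul_eq_mul, Pi.zero_apply, iv] at this ⊢
  exact_mod_cast this

lemma Uq_mono {T : Tube ι} {r d d' : ℝ} {x : Matrix ι ι ℝ} (hd : d' ≤ d) (h : Uq T r d x) :
    Uq T r d' x := fun w w' hw hw' h1 h2 h3 h4 =>
  h w w' hw hw' h1 (lt_of_lt_of_le h2 hd) h3 (lt_of_lt_of_le h4 hd)

/-- near a matrix of determinant one only finitely many integer tensors are small -/
lemma finite_small (k : ℕ) (x0 : Matrix ι ι ℝ) (r : ℝ) :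
    ∃ F : Set ((Fin k → ι) → ℤ), F.Finite ∧ ∀ᶠ x in 𝓝 x0, x.det = 1 →
      ∀ w : (Fin k → ι) → ℤ, ‖rad k x (iv w)‖ < r → w ∈ F := by
  have hcont : Continuous fun x : Matrix ι ι ℝ =>
      ∑ i : Fin k → ι, ∑ j : Fin k → ι, |tens k xᵀ i j| := by
    refine continuous_finsetSum _ fun i _ => continuous_finsetSum _ fun j _ => ?_
    refine Continuous.abs ?_
    simp only [tens_apply, Matrix.transpose_apply]
    refine continuous_finsetProd _ fun a _ => ?_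
    exact continuous_id.matrix_elem _ _
  set B : ℝ := (∑ i : Fin k → ι, ∑ j : Fin k → ι, |tens k x0ᵀ i j|) + 1 with hB
  obtain ⟨M, hM⟩ := exists_nat_ge (B * max r 0)
  refine ⟨Set.Icc (fun _ => -(M : ℤ)) (fun _ => (M : ℤ)), Set.finite_Icc _ _, ?_⟩
  have hev : ∀ᶠ x in 𝓝 x0, ∑ i : Fin k → ι, ∑ j : Fin k → ι, |tens k xᵀ i j| < B :=
    (hcont.tendsto x0).eventually (gt_mem_nhds (by rw [hB]; linarith))
  filter_upwards [hev] with x hx hdet w hw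
  have habs : ∀ i, |(w i : ℝ)| ≤ M := by
    intro i
    have h1 : (w i : ℝ) = ∑ j, tens k xᵀ i j * rad k x (iv w) j := by
      have := congrFun (tens_transpose_mul_rad (k := k) hdet (iv w)) i
      rw [Matrix.mulVec, dotProduct] at this
      exact this.symm
    have h2 : |(w i : ℝ)| ≤ ∑ j, |tens k xᵀ i j| * max r 0 := by
      rw [h1]
      refine (Finset.abs_sum_le_sum_abs _ _).trans (Finset.sum_le_sum fun j _ => ?_)
      rw [abs_mul]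
      refine mul_le_mul_of_nonneg_left ?_ (abs_nonneg _)
      exact ((norm_le_pi_norm (rad k x (iv w)) j).trans hw.le).trans (le_max_left _ _)
    rw [← Finset.sum_mul] at h2
    have h3 : ∑ j, |tens k xᵀ i j| ≤ B := by
      refine le_trans ?_ hx.le
      exact Finset.single_le_sum (f := fun i => ∑ j, |tens k xᵀ i j|)
        (fun i _ => Finset.sum_nonneg fun j _ => abs_nonneg _) (Finset.mem_univ i)
    exact (h2.trans (mul_le_mul_of_nonneg_right h3 (le_max_right _ _))).trans hM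
  constructor
  · intro i
    have := (abs_le.1 (habs i)).1
    exact_mod_cast this
  · intro i
    have := (abs_le.1 (habs i)).2
    exact_mod_cast this

lemma local_uniq (T : Tube ι) (x0 : Matrix ι ι ℝ) (r : ℝ)
    (hu : ∀ w w' : (Fin T.k → ι) → ℤ, T.Pi (rad T.k x0 (iv w)) = 0 →
      T.Pi (rad T.k x0 (iv w')) = 0 → Dep w w') :
    ∃ d : ℝ, 0 < d ∧ ∀ᶠ x in 𝓝 x0, x.det = 1 → Uq T r d x := by
  obtain ⟨F, hF, hev⟩ := finite_small T.k x0 r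
  have h1 : ∀ᶠ d in 𝓝[>] (0 : ℝ), ∀ w ∈ F, T.Pi (rad T.k x0 (iv w)) ≠ 0 →
      d < ‖T.Pi (rad T.k x0 (iv w))‖ := by
    rw [Filter.eventually_all_finite hF]
    intro w _
    by_cases h : T.Pi (rad T.k x0 (iv w)) = 0
    · exact Filter.Eventually.of_forall fun d h' => absurd h h'
    · have : ∀ᶠ d in 𝓝[>] (0 : ℝ), d < ‖T.Pi (rad T.k x0 (iv w))‖ :=
        nhdsWithin_le_nhds (gt_mem_nhds (norm_pos_iff.2 h))
      exact this.mono fun d hd _ => hd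
  obtain ⟨d, hd, hd0⟩ := (h1.and self_mem_nhdsWithin).exists
  refine ⟨d, hd0, ?_⟩
  have h2 : ∀ᶠ x in 𝓝 x0, ∀ w ∈ F, T.Pi (rad T.k x0 (iv w)) ≠ 0 →
      d < ‖T.Pi (rad T.k x (iv w))‖ := by
    rw [Filter.eventually_all_finite hF]
    intro w hw
    by_cases h : T.Pi (rad T.k x0 (iv w)) = 0
    · exact Filter.Eventually.of_forall fun d h' => absurd h h'
    · have := ((continuous_Pi_rad T (iv w)).norm.tendsto x0).eventually (lt_mem_nhds (hd w hw h))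
      exact this.mono fun d hd _ => hd
  filter_upwards [hev, h2] with x hx hx2 hdet w w' _ _ ha hb ha' hb'
  refine hu w w' ?_ ?_
  · by_contra h
    exact absurd hb (not_lt.2 (hx2 w (hx hdet w ha) h).le)
  · by_contra h
    exact absurd hb' (not_lt.2 (hx2 w' (hx hdet w' ha') h).le)

lemma compact_uniq (T : Tube ι) (C : Set (Matrix ι ι ℝ)) (hC : IsCompact C) (r : ℝ)
    (hu : ∀ x ∈ C, ∀ w w' : (Fin T.k → ι) → ℤ, T.Pi (rad T.k x (iv w)) = 0 →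
      T.Pi (rad T.k x (iv w')) = 0 → Dep w w') :
    ∃ d : ℝ, 0 < d ∧ ∃ N : Set (Matrix ι ι ℝ), IsOpen N ∧ C ⊆ N ∧
      ∀ x ∈ N, x.det = 1 → Uq T r d x := by
  refine hC.induction_on (p := fun s => ∃ d : ℝ, 0 < d ∧ ∃ N : Set (Matrix ι ι ℝ),
    IsOpen N ∧ s ⊆ N ∧ ∀ x ∈ N, x.det = 1 → Uq T r d x) ?_ ?_ ?_ ?_
  · exact ⟨1, one_pos, ∅, isOpen_empty, subset_rfl, fun x hx => absurd hx (notMem_empty x)⟩
  · rintro s t hst ⟨d, hd, N, hN, hsN, h⟩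
    exact ⟨d, hd, N, hN, hst.trans hsN, h⟩
  · rintro s t ⟨d, hd, N, hN, hsN, h⟩ ⟨d', hd', N', hN', hsN', h'⟩
    refine ⟨min d d', lt_min hd hd', N ∪ N', hN.union hN', union_subset_union hsN hsN', ?_⟩
    rintro x (hx | hx) hdet
    · exact Uq_mono (min_le_left _ _) (h x hx hdet)
    · exact Uq_mono (min_le_right _ _) (h' x hx hdet)
  · intro x hx
    obtain ⟨d, hd, hev⟩ := local_uniq T x r (hu x hx)
    obtain ⟨N, hN, hNo, hxN⟩ := eventually_nhds_iff.1 hev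
    exact ⟨N, mem_nhdsWithin_of_mem_nhds (hNo.mem_nhds hxN), d, hd, N, hNo, subset_rfl, hN⟩

/-- the time estimate -/
lemma time_est (hJ : JcStmt) (hCov : CoverStmt) [Nonempty ι] (T : Tube ι)
    (D : ℕ) (η c : ℝ) (hη : 0 < η)
    (hc : ∀ p : ℝ[X], p.natDegree ≤ T.k * (Fintype.card ι * D) → ∀ a b e : ℝ, a < b →
      e ∈ Icc a b →
      volume {x ∈ Icc a b | |p.eval x| < c * |p.eval e|} ≤ ENNReal.ofReal (η * (b - a)))
    (hc0 : 0 < c)
    (r r' d d' : ℝ) (hr : r ≤ c * r') (hd : d ≤ c * d') (hrr : r ≤ r') (hdd : d ≤ d')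
    (P : Matrix ι ι ℝ[X]) (hP : ∀ i j, (P i j).natDegree ≤ D)
    (hH : ∀ w : (Fin T.k → ι) → ℤ, w ≠ 0 → ∃ τ ∈ Icc (0 : ℝ) 1,
      (∃ a, r' ≤ |rad T.k (ev P τ) (iv w) a|) ∨
      (∃ a, d' ≤ |T.Pi (rad T.k (ev P τ) (iv w)) a|))
    (O' : Set (Matrix ι ι ℝ)) (hO' : IsOpen O')
    (hO'u : ∀ τ ∈ Icc (0 : ℝ) 1, ev P τ ∈ O' → Uq T r' d' (ev P τ))
    (hO'o : ∀ τ ∈ Icc (0 : ℝ) 1, ev P τ ∈ O' → ev P τ ∈ Om T r d) :
    volume {τ ∈ Icc (0 : ℝ) 1 | ev P τ ∈ O'} ≤ ENNReal.ofReal (2 * η) := by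
  set J : Set ℝ := {τ ∈ Icc (0 : ℝ) 1 | ev P τ ∈ O'} with hJdef
  have hJm : MeasurableSet J :=
    measurableSet_Icc.inter (hO'.preimage (continuous_ev P)).measurableSet
  -- primitive tensors
  have hw : ∀ τ : J, ∃ w : (Fin T.k → ι) → ℤ, Finset.univ.gcd w = 1 ∧
      ‖rad T.k (ev P τ) (iv w)‖ < r ∧ ‖T.Pi (rad T.k (ev P τ) (iv w))‖ < d := by
    rintro ⟨τ, hτ, hτO⟩
    obtain ⟨w, hw0, h1, h2⟩ := hO'o τ hτ hτO
    obtain ⟨g, w0, hg, hwg, hprim⟩ := exists_prim hw0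
    have hiv : iv w = (g : ℝ) • iv w0 := by
      funext i
      rw [hwg]
      simp [iv]
    have hg' : (1 : ℝ) ≤ g := by exact_mod_cast hg
    refine ⟨w0, hprim, ?_, ?_⟩
    · refine lt_of_le_of_lt ?_ h1
      rw [hiv, rad_smul, norm_smul, Real.norm_eq_abs, abs_of_nonneg (by linarith)]
      exact le_mul_of_one_le_left (norm_nonneg _) hg'
    · refine lt_of_le_of_lt ?_ h2
      rw [hiv, rad_smul, map_smul, norm_smul, Real.norm_eq_abs, abs_of_nonneg (by linarith)]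
      exact le_mul_of_one_le_left (norm_nonneg _) hg'
  choose w hwp hw1 hw2 using hw
  set O : J → Set ℝ := fun τ => {σ | ‖rad T.k (ev P σ) (iv (w τ))‖ < r' ∧
    ‖T.Pi (rad T.k (ev P σ) (iv (w τ)))‖ < d'} with hOdef
  have hOopen : ∀ τ, IsOpen (O τ) := by
    intro τ
    refine IsOpen.and ?_ ?_
    · exact isOpen_lt ((continuous_rad T.k _).comp (continuous_ev P)).norm continuous_const
    · exact isOpen_lt ((continuous_Pi_rad T _).comp (continuous_ev P)).norm continuous_const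
  have hτO : ∀ τ : J, (τ : ℝ) ∈ O τ ∩ Icc 0 1 := fun τ =>
    ⟨⟨lt_of_lt_of_le (hw1 τ) hrr, lt_of_lt_of_le (hw2 τ) hdd⟩, τ.2.1⟩
  have hout : ∀ τ : J, ∃ τ0 ∈ Icc (0 : ℝ) 1, τ0 ∉ O τ := by
    intro τ
    obtain ⟨τ0, hτ0, h⟩ := hH (w τ) (prim_ne_zero (hwp τ))
    refine ⟨τ0, hτ0, ?_⟩
    rintro ⟨h1, h2⟩
    rcases h with ⟨a, ha⟩ | ⟨a, ha⟩
    · exact absurd h1 (not_lt.2 (ha.trans (norm_le_pi_norm (rad T.k (ev P τ0) (iv (w τ))) a)))
    · exact absurd h2 (not_lt.2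
        (ha.trans (norm_le_pi_norm (T.Pi (rad T.k (ev P τ0) (iv (w τ)))) a)))
  choose τ0 hτ0 hτ0O using hout
  have hspec := fun τ : J => hJ (O τ) (hOopen τ) 0 1 τ (τ0 τ) (hτO τ) (hτ0 τ) (hτ0O τ)
  set I : J → Set ℝ := fun τ => Jc (O τ) 0 1 τ with hIdef
  have hvol : ∀ τ : J, volume (J ∩ I τ) ≤ ENNReal.ofReal η * volume (I τ) := by
    intro τ
    obtain ⟨hmem, hsub, -, -, a, b, e, hab, he, he1, heO, hIoo, hIcc, -⟩ := hspec τ
    -- values on J ∩ I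
    have hJI : ∀ σ ∈ J ∩ I τ, ‖rad T.k (ev P σ) (iv (w τ))‖ < r ∧
        ‖T.Pi (rad T.k (ev P σ) (iv (w τ)))‖ < d := by
      rintro σ ⟨hσJ, hσI⟩
      have h1 := (hsub hσI).1
      have hdep := hO'u σ hσJ.1 hσJ.2 (w τ) (w ⟨σ, hσJ⟩) (prim_ne_zero (hwp τ))
        (prim_ne_zero (hwp _)) h1.1 h1.2 (lt_of_lt_of_le (hw1 ⟨σ, hσJ⟩) hrr)
        (lt_of_lt_of_le (hw2 ⟨σ, hσJ⟩) hdd)
      rcases dep_prim (hwp τ) (hwp _) hdep with h | h
      · rw [← h]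
        exact ⟨hw1 ⟨σ, hσJ⟩, hw2 ⟨σ, hσJ⟩⟩
      · have h3 : w τ = - w ⟨σ, hσJ⟩ := by rw [h, neg_neg]
        have h4 : iv (w τ) = (-1 : ℝ) • iv (w ⟨σ, hσJ⟩) := by
          rw [h3]
          funext i
          simp [iv]
        rw [h4, rad_smul, map_smul, norm_smul, norm_smul, norm_neg, norm_one, one_mul, one_mul]
        exact ⟨hw1 ⟨σ, hσJ⟩, hw2 ⟨σ, hσJ⟩⟩
    have hfin : volume (J ∩ I τ) ≤ ENNReal.ofReal (η * (b - a)) := by
      have hcase : r' ≤ ‖rad T.k (ev P e) (iv (w τ))‖ ∨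
          d' ≤ ‖T.Pi (rad T.k (ev P e) (iv (w τ)))‖ := by
        by_contra hcon
        push Not at hcon
        exact heO ⟨hcon.1, hcon.2⟩
      rcases hcase with hcase | hcase
      · obtain ⟨i, hi⟩ : ∃ i, ‖rad T.k (ev P e) (iv (w τ)) i‖ =
            ‖rad T.k (ev P e) (iv (w τ))‖ := by
          obtain ⟨i, -, hi⟩ := Finset.exists_mem_eq_sup' (Finset.univ_nonempty (α := Fin T.k → ι))
            (fun i => ‖rad T.k (ev P e) (iv (w τ)) i‖)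
          refine ⟨i, ?_⟩
          refine le_antisymm (norm_le_pi_norm _ _) ?_
          rw [← hi]
          refine (pi_norm_le_iff_of_nonneg ?_).2 fun j => ?_
          · exact (norm_nonneg _).trans (Finset.le_sup' (fun i => ‖rad T.k (ev P e) (iv (w τ)) i‖)
              (Finset.mem_univ i))
          · exact Finset.le_sup' (fun i => ‖rad T.k (ev P e) (iv (w τ)) i‖) (Finset.mem_univ j)
        obtain ⟨p, hpdeg, hp⟩ := rad_poly P hP (iv (w τ)) (LinearMap.proj i)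
        refine (measure_mono ?_).trans (hc p hpdeg a b e hab he)
        intro σ hσ
        refine ⟨hIcc hσ.2, ?_⟩
        rw [hp, hp]
        simp only [LinearMap.proj_apply]
        rw [← Real.norm_eq_abs, ← Real.norm_eq_abs, hi]
        calc ‖rad T.k (ev P σ) (iv (w τ)) i‖ ≤ ‖rad T.k (ev P σ) (iv (w τ))‖ :=
              norm_le_pi_norm _ _
          _ < r := (hJI σ hσ).1
          _ ≤ c * r' := hr
          _ ≤ c * ‖rad T.k (ev P e) (iv (w τ))‖ := mul_le_mul_of_nonneg_left hcase hc0.le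
      · obtain ⟨i, hi⟩ : ∃ i, ‖T.Pi (rad T.k (ev P e) (iv (w τ))) i‖ =
            ‖T.Pi (rad T.k (ev P e) (iv (w τ)))‖ := by
          obtain ⟨i, -, hi⟩ := Finset.exists_mem_eq_sup' (Finset.univ_nonempty (α := Fin T.k → ι))
            (fun i => ‖T.Pi (rad T.k (ev P e) (iv (w τ))) i‖)
          refine ⟨i, ?_⟩
          refine le_antisymm (norm_le_pi_norm _ _) ?_
          rw [← hi]
          refine (pi_norm_le_iff_of_nonneg ?_).2 fun j => ?_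
          · exact (norm_nonneg _).trans
              (Finset.le_sup' (fun i => ‖T.Pi (rad T.k (ev P e) (iv (w τ))) i‖)
              (Finset.mem_univ i))
          · exact Finset.le_sup' (fun i => ‖T.Pi (rad T.k (ev P e) (iv (w τ))) i‖)
              (Finset.mem_univ j)
        obtain ⟨p, hpdeg, hp⟩ := rad_poly P hP (iv (w τ)) ((LinearMap.proj i).comp T.Pi)
        refine (measure_mono ?_).trans (hc p hpdeg a b e hab he)
        intro σ hσ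
        refine ⟨hIcc hσ.2, ?_⟩
        rw [hp, hp]
        simp only [LinearMap.comp_apply, LinearMap.proj_apply]
        rw [← Real.norm_eq_abs, ← Real.norm_eq_abs, hi]
        calc ‖T.Pi (rad T.k (ev P σ) (iv (w τ))) i‖ ≤ ‖T.Pi (rad T.k (ev P σ) (iv (w τ)))‖ :=
              norm_le_pi_norm _ _
          _ < d := (hJI σ hσ).2
          _ ≤ c * d' := hd
          _ ≤ c * ‖T.Pi (rad T.k (ev P e) (iv (w τ)))‖ :=
              mul_le_mul_of_nonneg_left hcase hc0.le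
    refine hfin.trans ?_
    rw [ENNReal.ofReal_mul hη.le]
    have hle : ENNReal.ofReal (b - a) ≤ volume (I τ) := by
      rw [← Real.volume_Ioo]
      exact measure_mono hIoo
    gcongr
  -- inner regularity
  rw [hJm.measure_eq_iSup_isCompact]
  refine iSup₂_le fun K hKJ => iSup_le fun hK => ?_
  have hKs : K ⊆ Icc (0 : ℝ) 1 := fun x hx => (hKJ hx).1
  have hIc : ∀ τ, (I τ).OrdConnected := fun τ =>
    (inferInstance : (Set.ordConnectedComponent (O τ ∩ Icc 0 1) (τ : ℝ)).OrdConnected)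
  obtain ⟨s, hs, hsum⟩ := hCov 0 1 K hK hKs I (fun τ => (hspec τ).2.2.1) hIc (fun x hx => mem_iUnion.2 ⟨⟨x, hKJ hx⟩, (hspec ⟨x, hKJ hx⟩).1⟩)
  · have h1 : K ⊆ ⋃ τ ∈ s, J ∩ I τ := by
      intro x hx
      obtain ⟨τ, hτs, hxτ⟩ := mem_iUnion₂.1 (hs hx)
      exact mem_iUnion₂.2 ⟨τ, hτs, hKJ hx, hxτ⟩
    calc volume K ≤ volume (⋃ τ ∈ s, J ∩ I τ) := measure_mono h1
      _ ≤ ∑ τ ∈ s, volume (J ∩ I τ) := measure_biUnion_finset_le _ _
      _ ≤ ∑ τ ∈ s, ENNReal.ofReal η * volume (I τ) := Finset.sum_le_sum fun τ _ => hvol τ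
      _ = ENNReal.ofReal η * ∑ τ ∈ s, volume (I τ) := by rw [Finset.mul_sum]
      _ ≤ ENNReal.ofReal η * (2 * ENNReal.ofReal (1 - 0)) := by gcongr
      _ = ENNReal.ofReal (2 * η) := by
          rw [sub_zero, ENNReal.ofReal_one, mul_one, mul_comm, ENNReal.ofReal_mul (by norm_num)]
          simp

/-- data for one radius -/
lemma one_radius (hRem : RemezStmt) (hJ : JcStmt) (hCov : CoverStmt) [Nonempty ι] (T : Tube ι)
    (D : ℕ) (δ : ℕ → ℝ) (hδ : ∀ R, 0 < δ R) (C : Set (Matrix ι ι ℝ)) (hC : IsCompact C)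
    (hu : ∀ x ∈ C, ∀ w w' : (Fin T.k → ι) → ℤ, T.Pi (rad T.k x (iv w)) = 0 →
      T.Pi (rad T.k x (iv w')) = 0 → Dep w w') (ε : ℝ) (hε : 0 < ε) (R : ℕ) :
    ∃ (R' : ℕ) (N : Set (Matrix ι ι ℝ)) (δ1 : ℝ), 0 < δ1 ∧ IsOpen N ∧ C ⊆ N ∧
      ∀ P : Matrix ι ι ℝ[X], (∀ i j, (P i j).natDegree ≤ D) → (∀ τ, (ev P τ).det = 1) →
        (∀ w : (Fin T.k → ι) → ℤ, w ≠ 0 → ∃ τ ∈ Icc (0 : ℝ) 1,
          (∃ c, (R' : ℝ) ≤ |ract false T.k (ev P τ) (iv w) c|) ∨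
          (∃ c, δ R' ≤ |T.Pi (ract false T.k (ev P τ) (iv w)) c|)) →
        volume {τ ∈ Icc (0 : ℝ) 1 | ∃ γ ∈ Gam ι, ev P τ * γ ∈ N ∩ Om T (R + 1) δ1} ≤
          ENNReal.ofReal ε := by
  obtain ⟨c, hc0, hc⟩ := hRem (T.k * (Fintype.card ι * D)) (ε / 2) (by linarith)
  obtain ⟨R', hR'⟩ := exists_nat_ge (max (R + 1 : ℝ) ((R + 1) / c))
  have h1 : (R + 1 : ℝ) ≤ R' := (le_max_left _ _).trans hR'
  have h2 : (R + 1 : ℝ) ≤ c * R' := by
    have := (le_max_right _ _).trans hR'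
    rw [div_le_iff₀ hc0] at this
    linarith
  obtain ⟨d0, hd0, N, hN, hCN, hNu⟩ := compact_uniq T C hC R' hu
  set δ0 := min d0 (δ R') with hδ0
  have hδ0p : 0 < δ0 := lt_min hd0 (hδ R')
  refine ⟨R', N, min δ0 (c * δ0), lt_min hδ0p (mul_pos hc0 hδ0p), hN, hCN, ?_⟩
  intro P hP hdet hH
  have hO' : IsOpen {x : Matrix ι ι ℝ | ∃ γ ∈ Gam ι, x * γ ∈ N ∩ Om T (R + 1) (min δ0 (c * δ0))} := by
    have : {x : Matrix ι ι ℝ | ∃ γ ∈ Gam ι, x * γ ∈ N ∩ Om T (R + 1) (min δ0 (c * δ0))} =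
        ⋃ γ ∈ Gam ι, (fun x => x * γ) ⁻¹' (N ∩ Om T (R + 1) (min δ0 (c * δ0))) := by
      ext x
      constructor
      · rintro ⟨γ, hγ, h⟩
        exact mem_iUnion₂.2 ⟨γ, hγ, h⟩
      · intro h
        obtain ⟨γ, hγ, h⟩ := mem_iUnion₂.1 h
        exact ⟨γ, hγ, h⟩
    rw [this]
    refine isOpen_biUnion fun γ _ => ?_
    exact (hN.inter (isOpen_Om T _ _)).preimage (continuous_id.matrix_mul continuous_const)
  have := time_est hJ hCov T D (ε / 2) c (by linarith) hc hc0 (R + 1) R' (min δ0 (c * δ0)) δ0 h2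
    (min_le_right _ _) h1 (min_le_left _ _) P hP ?_ _ hO' ?_ ?_
  · refine this.trans ?_
    rw [mul_div_cancel₀]
    norm_num
  · intro w hw
    obtain ⟨τ, hτ, h⟩ := hH w hw
    rw [ract_eq_rad (hdet τ)] at h
    refine ⟨τ, hτ, ?_⟩
    rcases h with ⟨a, ha⟩ | ⟨a, ha⟩
    · exact Or.inl ⟨a, ha⟩
    · exact Or.inr ⟨a, (min_le_right _ _).trans ha⟩
  · rintro τ hτ ⟨γ, hγ, hγN, -⟩
    refine Uq_gam hγ (Uq_mono (min_le_left _ _) (hNu _ hγN ?_))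
    rw [Matrix.det_mul, hdet, hγ.1, one_mul]
  · rintro τ hτ ⟨γ, hγ, -, hγO⟩
    exact Om_gam hγ hγO

lemma sum_pow_le (t : Finset ℕ) : ∑ R ∈ t, ((1 : ℝ) / 2) ^ (R + 1) ≤ 1 := by
  have h1 : ∀ n : ℕ, ∑ R ∈ Finset.range n, ((1 : ℝ) / 2) ^ (R + 1) = 1 - (1 / 2) ^ n := by
    intro n
    induction n with
    | zero => simp
    | succ n ih => rw [Finset.sum_range_succ, ih, pow_succ]; ring
  have h2 : t ⊆ Finset.range (t.sup id + 1) := by
    intro x hx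
    rw [Finset.mem_range]
    exact Nat.lt_succ_of_le (Finset.le_sup (f := id) hx)
  calc ∑ R ∈ t, ((1 : ℝ) / 2) ^ (R + 1)
      ≤ ∑ R ∈ Finset.range (t.sup id + 1), ((1 : ℝ) / 2) ^ (R + 1) :=
        Finset.sum_le_sum_of_subset_of_nonneg h2 fun i _ _ => by positivity
    _ = 1 - (1 / 2) ^ (t.sup id + 1) := h1 _
    _ ≤ 1 := by
        have : (0 : ℝ) ≤ (1 / 2) ^ (t.sup id + 1) := by positivity
        linarith

/-- nondivergence and linearization -/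
theorem NL_of (hRem : RemezStmt) (hJ : JcStmt) (hCov : CoverStmt) [Nonempty ι]
    (hND : NondivStmt ι) (hMah : MahlerStmt ι) (L : List (Tube ι))
    (hU : UniqL L) (D : ℕ) (κ : ℝ) (hκ : 0 < κ) (δ : ℕ → ℝ) (hδ : ∀ R, 0 < δ R) :
    ∀ ε : ℝ, 0 < ε → 
    ∃ C : Set (Matrix ι ι ℝ), IsCompact C ∧ C ⊆ ns L ∧ ∀ V, IsOpen V → C ⊆ V →
      ∃ R0 : ℕ, ∀ P : Matrix ι ι ℝ[X], (∀ i j, (P i j).natDegree ≤ D) →
        (∀ τ, (ev P τ).det = 1) → ND κ (ev P) → Hc L δ R0 (ev P) →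
        volume {τ ∈ Icc (0 : ℝ) 1 | ∀ γ ∈ Gam ι, ev P τ * γ ∉ V} ≤ ENNReal.ofReal ε := by
  induction L with
  | nil =>
    intro ε hε
    obtain ⟨ε1, hε1, h1⟩ := hND D κ ε hκ hε
    obtain ⟨C, hC⟩ := hMah ε1 hε1
    have hcl : IsClosed {g : Matrix ι ι ℝ | g.det = 1} :=
      isClosed_eq (continuous_id.matrix_det) continuous_const
    refine ⟨{g : Matrix ι ι ℝ | g.det = 1} ∩ (Set.pi univ fun _ => Set.pi univ fun _ => Icc (-C) C),
      ?_, ?_, ?_⟩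
    · refine IsCompact.inter_left ?_ hcl
      exact isCompact_univ_pi fun _ => isCompact_univ_pi fun _ => isCompact_Icc
    · rintro g ⟨hg, -⟩
      exact ⟨hg, fun T hT => absurd hT List.not_mem_nil⟩
    · intro V _ hCV
      refine ⟨0, fun P hP hdet hnd _ => (measure_mono ?_).trans (h1 P hP hdet hnd)⟩
      rintro τ ⟨hτ, hτV⟩
      refine ⟨hτ, ?_⟩
      by_contra hcon
      push Not at hcon
      obtain ⟨γ, hγ, hb⟩ := hC (ev P τ) (hdet τ) hcon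
      refine hτV γ hγ (hCV ⟨?_, ?_⟩)
      · change (ev P τ * γ).det = 1
        rw [Matrix.det_mul, hdet, hγ.1, one_mul]
      · exact fun i _ j _ => abs_le.1 (hb i j)
  | cons T L ih =>
    intro ε hε
    obtain ⟨hUL, hT⟩ := hU
    obtain ⟨C', hC'c, hC'ns, hC'V⟩ := ih hUL (ε / 2) (by linarith)
    have huC : ∀ x ∈ C', ∀ w w' : (Fin T.k → ι) → ℤ, T.Pi (rad T.k x (iv w)) = 0 →
        T.Pi (rad T.k x (iv w')) = 0 → Dep w w' := by
      intro x hx w w' h h'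
      rw [← ract_eq_rad (hC'ns hx).1] at h h'
      exact hT x (hC'ns hx) w w' h h'
    have hdat := fun R : ℕ => one_radius hRem hJ hCov T D δ hδ C' hC'c huC
      (ε / 2 * (1 / 2) ^ (R + 1)) (by positivity) R
    choose R' N δ1 hδ1 hN hCN hvol using hdat
    refine ⟨C' \ ⋃ R : ℕ, Om T (R + 1) (δ1 R), ?_, ?_, ?_⟩
    · exact hC'c.diff (isOpen_iUnion fun R => isOpen_Om T _ _)
    · rintro x ⟨hx, hxO⟩
      refine ⟨(hC'ns hx).1, fun T' hT' => ?_⟩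
      rcases List.mem_cons.1 hT' with rfl | hT'
      · rintro ⟨w, hw, h⟩
        apply hxO
        rw [ract_eq_rad (hC'ns hx).1] at h
        obtain ⟨R, hR⟩ := exists_nat_ge ‖rad T'.k x (iv w)‖
        refine mem_iUnion.2 ⟨R, w, hw, by linarith, ?_⟩
        rw [h, norm_zero]
        exact hδ1 R
      · exact (hC'ns hx).2 T' hT'
    · intro V hV hCV
      have hcov : C' ⊆ ⋃ R : ℕ, (V ∪ Om T (R + 1) (δ1 R)) := by
        intro x hx
        by_cases h : x ∈ ⋃ R : ℕ, Om T (R + 1) (δ1 R)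
        · obtain ⟨R, hR⟩ := mem_iUnion.1 h
          exact mem_iUnion.2 ⟨R, Or.inr hR⟩
        · exact mem_iUnion.2 ⟨0, Or.inl (hCV ⟨hx, h⟩)⟩
      obtain ⟨t, ht⟩ := hC'c.elim_finite_subcover (fun R : ℕ => V ∪ Om T (R + 1) (δ1 R))
        (fun R : ℕ => hV.union (isOpen_Om T (R + 1) (δ1 R))) hcov
      obtain ⟨R0, hR0⟩ := hC'V ((⋂ R ∈ t, N R) ∩ (V ∪ ⋃ R ∈ t, Om T (R + 1) (δ1 R)))
        ((isOpen_biInter_finset fun R _ => hN R).inter
          (hV.union (isOpen_biUnion fun R _ => isOpen_Om T _ _))) (by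
          intro x hx
          refine ⟨mem_iInter₂.2 fun R _ => hCN R hx, ?_⟩
          obtain ⟨R, hRt, h⟩ := mem_iUnion₂.1 (ht hx)
          rcases h with h | h
          · exact Or.inl h
          · exact Or.inr (mem_iUnion₂.2 ⟨R, hRt, h⟩))
      refine ⟨max R0 (t.sup R'), fun P hP hdet hnd hH => ?_⟩
      have hA := hR0 P hP hdet hnd (fun T' hT' R hR => hH T' (List.mem_cons_of_mem _ hT') R
        (hR.trans (le_max_left _ _)))
      have hB : ∀ R ∈ t, volume {τ ∈ Icc (0 : ℝ) 1 | ∃ γ ∈ Gam ι, ev P τ * γ ∈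
          N R ∩ Om T (R + 1) (δ1 R)} ≤ ENNReal.ofReal (ε / 2 * (1 / 2) ^ (R + 1)) := by
        intro R hRt
        refine hvol R P hP hdet fun w hw => ?_
        exact hH T List.mem_cons_self (R' R) ((Finset.le_sup hRt).trans (le_max_right _ _)) w hw
      have hsub : {τ ∈ Icc (0 : ℝ) 1 | ∀ γ ∈ Gam ι, ev P τ * γ ∉ V} ⊆
          {τ ∈ Icc (0 : ℝ) 1 | ∀ γ ∈ Gam ι, ev P τ * γ ∉
            ((⋂ R ∈ t, N R) ∩ (V ∪ ⋃ R ∈ t, Om T (R + 1) (δ1 R)))} ∪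
          ⋃ R ∈ t, {τ ∈ Icc (0 : ℝ) 1 | ∃ γ ∈ Gam ι, ev P τ * γ ∈ N R ∩ Om T (R + 1) (δ1 R)} := by
        rintro τ ⟨hτ, hτV⟩
        by_cases h : ∀ γ ∈ Gam ι, ev P τ * γ ∉
            ((⋂ R ∈ t, N R) ∩ (V ∪ ⋃ R ∈ t, Om T (R + 1) (δ1 R)))
        · exact Or.inl ⟨hτ, h⟩
        · push Not at h
          obtain ⟨γ, hγ, h1, h2⟩ := h
          rcases h2 with h2 | h2
          · exact absurd h2 (hτV γ hγ)
          · obtain ⟨R, hRt, h3⟩ := mem_iUnion₂.1 h2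
            exact Or.inr (mem_iUnion₂.2 ⟨R, hRt, hτ, γ, hγ, mem_iInter₂.1 h1 R hRt, h3⟩)
      calc volume {τ ∈ Icc (0 : ℝ) 1 | ∀ γ ∈ Gam ι, ev P τ * γ ∉ V}
          ≤ volume _ := measure_mono hsub
        _ ≤ _ := measure_union_le _ _
        _ ≤ ENNReal.ofReal (ε / 2) + ∑ R ∈ t, ENNReal.ofReal (ε / 2 * (1 / 2) ^ (R + 1)) := by
            refine add_le_add hA ?_
            exact (measure_biUnion_finset_le _ _).trans (Finset.sum_le_sum hB)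
        _ = ENNReal.ofReal (ε / 2 + ε / 2 * ∑ R ∈ t, (1 / 2) ^ (R + 1)) := by
            rw [← ENNReal.ofReal_sum_of_nonneg (fun R _ => by positivity), ← Finset.mul_sum,
              ← ENNReal.ofReal_add (by positivity)]
            exact mul_nonneg (by linarith) (Finset.sum_nonneg fun R _ => by positivity)
        _ ≤ ENNReal.ofReal ε := by
            refine ENNReal.ofReal_le_ofReal ?_
            have := sum_pow_le t
            nlinarith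

/-- open box neighbourhood of a set of matrices -/
def Box (C : Set (Matrix ι ι ℝ)) (η : ℝ) : Set (Matrix ι ι ℝ) :=
  {x | ∃ c ∈ C, ∀ i j, |x i j - c i j| < η}

omit [DecidableEq ι] in
lemma isOpen_Box (C : Set (Matrix ι ι ℝ)) (η : ℝ) : IsOpen (Box C η) := by
  have : Box C η = ⋃ c ∈ C, ⋂ i, ⋂ j, {x : Matrix ι ι ℝ | |x i j - c i j| < η} := by
    ext x
    simp [Box]
  rw [this]
  refine isOpen_biUnion fun c _ => isOpen_iInter_of_finite fun i => isOpen_iInter_of_finite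
    fun j => ?_
  exact isOpen_lt (((continuous_id.matrix_elem i j).sub continuous_const).abs) continuous_const

/-- sequence version, general form -/
theorem NL_seq2_of (hRem : RemezStmt) (hJ : JcStmt) (hCov : CoverStmt) [Nonempty ι]
    (hND : NondivStmt ι) (hMah : MahlerStmt ι) (L : List (Tube ι))
    (hU : UniqL L) (D : ℕ) (κ : ℝ) (hκ : 0 < κ) (P : ℕ → Matrix ι ι ℝ[X])
    (hdeg : ∀ m i j, (P m i j).natDegree ≤ D) (hdet : ∀ m τ, (ev (P m) τ).det = 1)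
    (hnd : ∀ m, ND κ (ev (P m)))
    (hH : ∀ R : ℕ, ∃ δ > 0, ∃ m0, ∀ m ≥ m0, ∀ T ∈ L, ∀ w : (Fin T.k → ι) → ℤ, w ≠ 0 →
      ∃ τ ∈ Icc (0 : ℝ) 1, (∃ c, (R : ℝ) ≤ |ract false T.k (ev (P m) τ) (iv w) c|) ∨
        (∃ c, δ ≤ |T.Pi (ract false T.k (ev (P m) τ) (iv w)) c|)) :
    ∃ z ∈ ns L, ∃ f : ℕ → ℕ, StrictMono f ∧ ∃ τ : ℕ → ℝ, (∀ m, τ m ∈ Icc (0 : ℝ) 1) ∧
      ∃ γ : ℕ → Matrix ι ι ℝ, (∀ m, γ m ∈ Gam ι) ∧
        Tendsto (fun m => ev (P (f m)) (τ m) * γ m) atTop (𝓝 z) := by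
  choose δ hδ n0 hn0 using hH
  obtain ⟨C, hC, hCns, hCV⟩ := NL_of hRem hJ hCov hND hMah L hU D κ hκ δ
    hδ (1 / 2) (by norm_num)
  have hsub : ∀ η : ℝ, 0 < η → C ⊆ Box C η := by
    intro η hη x hx
    exact ⟨x, hx, fun i j => by simpa using hη⟩
  -- good indices
  have hgood : ∀ n : ℕ, ∃ m0 : ℕ, ∀ m ≥ m0, ∃ τ ∈ Icc (0 : ℝ) 1, ∃ γ ∈ Gam ι,
      ∃ c ∈ C, ∀ i j, |(ev (P m) τ * γ) i j - c i j| < 1 / ((n : ℝ) + 1) := by
    intro n
    obtain ⟨R0, hR0⟩ := hCV (Box C (1 / ((n : ℝ) + 1))) (isOpen_Box C _)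
      (hsub _ (by positivity))
    refine ⟨(Finset.range (R0 + 1)).sup n0, fun m hm => ?_⟩
    have hvol := hR0 (P m) (hdeg m) (hdet m) (hnd m) (by
      intro T hT R hR w hw
      have hRm : n0 R ≤ m :=
        (Finset.le_sup (Finset.mem_range.2 (Nat.lt_succ_of_le hR))).trans hm
      exact hn0 R m hRm T hT w hw)
    by_contra hcon
    push Not at hcon
    have hall : {τ ∈ Icc (0 : ℝ) 1 | ∀ γ ∈ Gam ι, ev (P m) τ * γ ∉ Box C (1 / ((n : ℝ) + 1))} =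
        Icc (0 : ℝ) 1 := by
      ext τ
      refine ⟨fun h => h.1, fun hτ => ⟨hτ, fun γ hγ hmem => ?_⟩⟩
      obtain ⟨c, hc, hb⟩ := hmem
      obtain ⟨i, j, hij⟩ := hcon τ hτ γ hγ c hc
      exact absurd (hb i j) (not_lt.2 hij)
    rw [hall, Real.volume_Icc, sub_zero] at hvol
    have := (ENNReal.ofReal_le_ofReal_iff (by norm_num)).1 hvol
    norm_num at this
  choose m0 hm0 using hgood
  -- an increasing choice of indices
  obtain ⟨f, hf, hfm⟩ : ∃ f : ℕ → ℕ, StrictMono f ∧ ∀ n, m0 n ≤ f n := by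
    refine ⟨fun n => ∑ i ∈ Finset.range (n + 1), (m0 i + 1), ?_, ?_⟩
    · refine strictMono_nat_of_lt_succ fun n => ?_
      rw [Finset.sum_range_succ _ (n + 1)]
      omega
    · intro n
      change m0 n ≤ ∑ i ∈ Finset.range (n + 1), (m0 i + 1)
      rw [Finset.sum_range_succ]
      omega
  choose τ hτ γ hγ c hc hb using fun n => hm0 n (f n) (hfm n)
  have : FirstCountableTopology (Matrix ι ι ℝ) :=
    inferInstanceAs (FirstCountableTopology (ι → ι → ℝ))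
  obtain ⟨z, hz, g, hg, hlim⟩ := hC.tendsto_subseq hc
  refine ⟨z, hCns hz, f ∘ g, hf.comp hg, τ ∘ g, fun m => hτ _, γ ∘ g, fun m => hγ _, ?_⟩
  refine tendsto_pi_nhds.2 fun i => tendsto_pi_nhds.2 fun j => ?_
  have h1 : Tendsto (fun m => c (g m) i j) atTop (𝓝 (z i j)) :=
    (tendsto_pi_nhds.1 ((tendsto_pi_nhds.1 hlim) i)) j
  have h2 : Tendsto (fun m => (ev (P (f (g m))) (τ (g m)) * γ (g m)) i j - c (g m) i j) atTop
      (𝓝 0) := by
    have h3 : Tendsto (fun m => 1 / (((g m : ℕ) : ℝ) + 1)) atTop (𝓝 0) :=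
      tendsto_one_div_add_atTop_nhds_zero_nat.comp hg.tendsto_atTop
    refine squeeze_zero_norm (fun m => ?_) h3
    rw [Real.norm_eq_abs]
    exact (hb (g m) i j).le
  have h4 := h2.add h1
  simpa using h4

end QL.H97

namespace QL

/-- statement of the strengthened sequence version -/
def NL_seq2Statement : Prop :=
  ∀ (ι : Type) [Fintype ι] [DecidableEq ι] [Nonempty ι] (L : List (Tube ι))
    (_ : UniqL L) (D : ℕ) (κ : ℝ) (_ : 0 < κ) (P : ℕ → Matrix ι ι ℝ[X])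
    (_ : ∀ m i j, (P m i j).natDegree ≤ D) (_ : ∀ m τ, (ev (P m) τ).det = 1)
    (_ : ∀ m, ND κ (ev (P m)))
    (_ : ∀ R : ℕ, ∃ δ > 0, ∃ m0, ∀ m ≥ m0, ∀ T ∈ L, ∀ w : (Fin T.k → ι) → ℤ, w ≠ 0 →
      ∃ τ ∈ Icc (0 : ℝ) 1, (∃ c, (R : ℝ) ≤ |ract false T.k (ev (P m) τ) (iv w) c|) ∨
        (∃ c, δ ≤ |T.Pi (ract false T.k (ev (P m) τ) (iv w)) c|)),
    ∃ z ∈ ns L, ∃ f : ℕ → ℕ, StrictMono f ∧ ∃ τ : ℕ → ℝ, (∀ m, τ m ∈ Icc (0 : ℝ) 1) ∧
      ∃ γ : ℕ → Matrix ι ι ℝ, (∀ m, γ m ∈ Gam ι) ∧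
        Tendsto (fun m => ev (P (f m)) (τ m) * γ m) atTop (𝓝 z)

namespace H97

/-- module NL -/
theorem NL (hRem : remezStatement) (hJ : Jc_specStatement) (hCov : cover_twoStatement)
    (hND : nondivStatement) (hMah : mahlerStatement) : NLStatement := by
  intro ι _ _ _ L hU D κ hκ δ hδ ε hε
  exact NL_of hRem hJ (fun {κ} => hCov (κ := κ)) (hND ι) (hMah ι) L hU D κ hκ δ hδ ε hε

/-- module NL_seq2 -/
theorem NL_seq2 (hRem : remezStatement) (hJ : Jc_specStatement) (hCov : cover_twoStatement)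
    (hND : nondivStatement) (hMah : mahlerStatement) : NL_seq2Statement := by
  intro ι _ _ _ L hU D κ hκ P hdeg hdet hnd hH
  exact NL_seq2_of hRem hJ (fun {κ} => hCov (κ := κ)) (hND ι) (hMah ι) L hU D κ hκ P hdeg hdet
    hnd hH

/-- module NL_seq -/
theorem NL_seq (hRem : remezStatement) (hJ : Jc_specStatement) (hCov : cover_twoStatement)
    (hND : nondivStatement) (hMah : mahlerStatement) : NL_seqStatement := by
  intro ι _ _ _ L hU D κ hκ P hdeg hdet hnd hH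
  refine NL_seq2 hRem hJ hCov hND hMah ι L hU D κ hκ P hdeg hdet hnd fun R => ?_
  obtain ⟨m0, hm0⟩ := hH R
  refine ⟨1, one_pos, m0, fun m hm T hT w hw => ?_⟩
  obtain ⟨τ, hτ, c, hc⟩ := hm0 m hm T hT w hw
  exact ⟨τ, hτ, Or.inl ⟨c, hc⟩⟩

end H97

end QL
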