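import Pool.Agent.Helper27_QL.Defs

/-!
# The action on covector tensors through the adjugate

For matrices of determinant one `ract false k x` is `rad k x`, which is polynomial in `x`.
-/

set_option autoImplicit false
open Matrix Polynomial MeasureTheory Set Filter Topology

namespace QL.H97

open QL

variable {ι : Type} [Fintype ι] [DecidableEq ι]

/-- polynomial version of `ract false` -/
def rad (k : ℕ) (g : Matrix ι ι ℝ) (w : (Fin k → ι) → ℝ) : (Fin k → ι) → ℝ :=
  tens k (g.adjugateᵀ) *ᵥ w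

omit [Fintype ι] [DecidableEq ι] in
lemma tens_apply {k : ℕ} (A : Matrix ι ι ℝ) (i j : Fin k → ι) :
    tens k A i j = ∏ a, A (i a) (j a) := rfl

lemma inv_eq_adj {g : Matrix ι ι ℝ} (hg : g.det = 1) : g⁻¹ = g.adjugate := by
  rw [Matrix.inv_def, hg]; simp

lemma ract_eq_rad {k : ℕ} {g : Matrix ι ι ℝ} (hg : g.det = 1) (w : (Fin k → ι) → ℝ) :
    ract false k g w = rad k g w := by
  unfold ract rad
  rw [inv_eq_adj hg]
  simp

omit [DecidableEq ι] in
lemma tens_mul (k : ℕ) (A B : Matrix ι ι ℝ) : tens k (A * B) = tens k A * tens k B := by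
  ext i j
  rw [tens_apply, Matrix.mul_apply]
  simp only [Matrix.mul_apply, tens_apply]
  rw [Finset.prod_univ_sum, Fintype.piFinset_univ]
  refine Finset.sum_congr rfl fun f _ => ?_
  rw [← Finset.prod_mul_distrib]

omit [Fintype ι] in
lemma tens_one (k : ℕ) : tens k (1 : Matrix ι ι ℝ) = 1 := by
  ext i j
  rw [tens_apply]
  by_cases h : i = j
  · subst h
    simp
  · rw [Matrix.one_apply_ne h]
    obtain ⟨a, ha⟩ := Function.ne_iff.1 h
    exact Finset.prod_eq_zero (Finset.mem_univ a) (Matrix.one_apply_ne ha)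

lemma rad_mul (k : ℕ) (g h : Matrix ι ι ℝ) (w : (Fin k → ι) → ℝ) :
    rad k (g * h) w = rad k g (rad k h w) := by
  unfold rad
  rw [Matrix.adjugate_mul_distrib, Matrix.transpose_mul, tens_mul, Matrix.mulVec_mulVec]

lemma rad_one (k : ℕ) (w : (Fin k → ι) → ℝ) : rad k (1 : Matrix ι ι ℝ) w = w := by
  unfold rad
  rw [Matrix.adjugate_one, Matrix.transpose_one, tens_one, Matrix.one_mulVec]

lemma rad_smul (k : ℕ) (g : Matrix ι ι ℝ) (c : ℝ) (w : (Fin k → ι) → ℝ) :
    rad k g (c • w) = c • rad k g w := by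
  unfold rad
  rw [Matrix.mulVec_smul]

lemma rad_add (k : ℕ) (g : Matrix ι ι ℝ) (w w' : (Fin k → ι) → ℝ) :
    rad k g (w + w') = rad k g w + rad k g w' := by
  unfold rad
  rw [Matrix.mulVec_add]

lemma rad_zero (k : ℕ) (g : Matrix ι ι ℝ) : rad k g (0 : (Fin k → ι) → ℝ) = 0 := by
  unfold rad
  rw [Matrix.mulVec_zero]

lemma tens_transpose_mul_rad {k : ℕ} {g : Matrix ι ι ℝ} (hg : g.det = 1)
    (w : (Fin k → ι) → ℝ) : tens k gᵀ *ᵥ rad k g w = w := by
  unfold rad
  rw [Matrix.mulVec_mulVec, ← tens_mul, ← Matrix.transpose_mul, Matrix.adjugate_mul, hg,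
    one_smul, Matrix.transpose_one, tens_one, Matrix.one_mulVec]

lemma rad_ne_zero {k : ℕ} {g : Matrix ι ι ℝ} (hg : g.det = 1)
    {w : (Fin k → ι) → ℝ} (hw : w ≠ 0) : rad k g w ≠ 0 := by
  intro h
  apply hw
  rw [← tens_transpose_mul_rad hg w, h, Matrix.mulVec_zero]

/-! ### integrality -/

omit [Fintype ι] [DecidableEq ι] in
lemma iv_ne_zero {κ : Type} {w : κ → ℤ} (hw : w ≠ 0) : iv w ≠ 0 := by
  intro h
  apply hw
  funext i
  have := congrFun h i
  simpa [iv] using this

lemma adj_int {γ : Matrix ι ι ℝ} (h : ∀ i j, ∃ m : ℤ, γ i j = m) :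
    ∀ i j, ∃ m : ℤ, γ.adjugate i j = m := by
  choose M hM using h
  have h1 : γ = (Int.castRingHom ℝ).mapMatrix (Matrix.of M) := by
    ext i j
    simp [hM]
  intro i j
  refine ⟨(Matrix.of M).adjugate i j, ?_⟩
  rw [h1, ← RingHom.map_adjugate]
  simp

lemma gam_one : (1 : Matrix ι ι ℝ) ∈ Gam ι := by
  refine ⟨Matrix.det_one, fun i j => ?_⟩
  by_cases h : i = j
  · subst h; exact ⟨1, by simp⟩
  · exact ⟨0, by simp [Matrix.one_apply_ne h]⟩

lemma gam_mul' {γ γ' : Matrix ι ι ℝ} (h : γ ∈ Gam ι) (h' : γ' ∈ Gam ι) : γ * γ' ∈ Gam ι := by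
  refine ⟨by rw [Matrix.det_mul, h.1, h'.1, one_mul], fun i j => ?_⟩
  choose M hM using h.2
  choose M' hM' using h'.2
  refine ⟨∑ l, M i l * M' l j, ?_⟩
  rw [Matrix.mul_apply]
  push_cast
  exact Finset.sum_congr rfl fun l _ => by rw [hM, hM']

lemma gam_adj {γ : Matrix ι ι ℝ} (h : γ ∈ Gam ι) : γ.adjugate ∈ Gam ι := by
  refine ⟨?_, adj_int h.2⟩
  have h1 := congrArg Matrix.det (Matrix.mul_adjugate γ)
  rw [Matrix.det_mul, h.1, one_mul, one_smul, Matrix.det_one] at h1
  exact h1

lemma gam_mul_adj {γ : Matrix ι ι ℝ} (h : γ ∈ Gam ι) : γ * γ.adjugate = 1 := by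
  rw [Matrix.mul_adjugate, h.1, one_smul]

lemma int_rad {k : ℕ} {γ : Matrix ι ι ℝ} (h : γ ∈ Gam ι) (w : (Fin k → ι) → ℤ) :
    ∃ w' : (Fin k → ι) → ℤ, rad k γ (iv w) = iv w' := by
  choose M hM using adj_int h.2
  refine ⟨fun i => ∑ j, (∏ a, M (j a) (i a)) * w j, ?_⟩
  funext i
  unfold rad
  rw [Matrix.mulVec, dotProduct]
  simp only [iv, tens_apply, Matrix.transpose_apply, hM]
  push_cast
  rfl

/-! ### dependence -/

/-- integral dependence of two integer tensors -/
def Dep {κ : Type} (w w' : κ → ℤ) : Prop :=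
  ∃ a b : ℤ, (a ≠ 0 ∨ b ≠ 0) ∧ a • w + b • w' = 0

lemma dep_prim {κ : Type} [Fintype κ] {w w' : κ → ℤ} (hw : Finset.univ.gcd w = 1)
    (hw' : Finset.univ.gcd w' = 1) (h : Dep w w') : w' = w ∨ w' = -w := by
  obtain ⟨a, b, hab, h⟩ := h
  have h1 : ∀ i, a * w i = (-b) * w' i := by
    intro i
    have := congrFun h i
    simp only [Pi.add_apply, Pi.smul_apply, smul_eq_mul, Pi.zero_apply] at this
    linarith
  have hg : Finset.univ.gcd (fun i => a * w i) = Finset.univ.gcd (fun i => (-b) * w' i) := by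
    congr 1
    funext i
    exact h1 i
  rw [Finset.gcd_mul_left, Finset.gcd_mul_left, hw, hw', mul_one, mul_one] at hg
  rw [← Int.abs_eq_normalize, ← Int.abs_eq_normalize, abs_eq_abs, neg_neg] at hg
  have ha : a ≠ 0 := by
    rintro rfl
    rcases hab with h | h
    · exact h rfl
    · rcases hg with h' | h' <;> omega
  rcases hg with hg | hg
  · left
    funext i
    have := h1 i
    rw [← hg] at this
    exact (mul_left_cancel₀ ha this).symm
  · right
    funext i
    have := h1 i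
    rw [← hg] at this
    have h2 : w i = - w' i := mul_left_cancel₀ ha (by rw [this]; ring)
    simp [h2]

lemma exists_prim {κ : Type} [Fintype κ] [Nonempty κ] {w : κ → ℤ} (hw : w ≠ 0) :
    ∃ (g : ℤ) (w0 : κ → ℤ), 1 ≤ g ∧ w = g • w0 ∧ Finset.univ.gcd w0 = 1 := by
  obtain ⟨w0, h1, h2⟩ := Finset.extract_gcd w (Finset.univ_nonempty (α := κ))
  refine ⟨Finset.univ.gcd w, w0, ?_, ?_, h2⟩
  · have h3 : Finset.univ.gcd w ≠ 0 := by
      intro h
      apply hw
      funext i
      exact (Finset.gcd_eq_zero_iff.1 h) i (Finset.mem_univ i)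
    have h4 : 0 ≤ Finset.univ.gcd w := by
      have := Finset.normalize_gcd (s := Finset.univ) (f := w)
      rw [← Int.abs_eq_normalize] at this
      rw [← this]
      exact abs_nonneg _
    omega
  · funext i
    simp [h1 i (Finset.mem_univ i)]

lemma prim_ne_zero {κ : Type} [Fintype κ] {w : κ → ℤ} (hw : Finset.univ.gcd w = 1) : w ≠ 0 := by
  rintro rfl
  have : Finset.univ.gcd (0 : κ → ℤ) = 0 := by
    rw [Finset.gcd_eq_zero_iff]
    intro i _
    rfl
  rw [this] at hw
  exact absurd hw (by norm_num)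

/-! ### polynomial paths -/

lemma ev_adjugate (P : Matrix ι ι ℝ[X]) (t : ℝ) : ev P.adjugate t = (ev P t).adjugate := by
  have h := RingHom.map_adjugate (Polynomial.evalRingHom t) P
  exact h

lemma natDegree_det_le' {D : ℕ} (P : Matrix ι ι ℝ[X]) (hP : ∀ i j, (P i j).natDegree ≤ D) :
    P.det.natDegree ≤ Fintype.card ι * D := by
  rw [Matrix.det_apply]
  refine Polynomial.natDegree_sum_le_of_forall_le _ _ fun σ _ => ?_
  refine (Polynomial.natDegree_smul_le _ _).trans ?_
  refine (Polynomial.natDegree_prod_le _ _).trans ?_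
  refine (Finset.sum_le_card_nsmul _ _ D fun i _ => hP _ _).trans ?_
  simp

lemma natDegree_adjugate_le {D : ℕ} (P : Matrix ι ι ℝ[X]) (hP : ∀ i j, (P i j).natDegree ≤ D)
    (i j : ι) : (P.adjugate i j).natDegree ≤ Fintype.card ι * D := by
  rw [Matrix.adjugate_apply]
  refine natDegree_det_le' _ fun a b => ?_
  rw [Matrix.updateRow_apply]
  split_ifs with h
  · by_cases hb : b = i
    · subst hb; simp
    · simp [Pi.single_eq_of_ne hb]
  · exact hP _ _

/-- linear functionals of `rad` along polynomial paths are polynomials of bounded degree -/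
lemma rad_poly {k D : ℕ} (P : Matrix ι ι ℝ[X]) (hP : ∀ i j, (P i j).natDegree ≤ D)
    (w : (Fin k → ι) → ℝ) (l : ((Fin k → ι) → ℝ) →ₗ[ℝ] ℝ) :
    ∃ p : ℝ[X], p.natDegree ≤ k * (Fintype.card ι * D) ∧
      ∀ t : ℝ, p.eval t = l (rad k (ev P t) w) := by
  refine ⟨∑ i : Fin k → ι, ∑ j : Fin k → ι,
    (∏ a, P.adjugate (j a) (i a)) * Polynomial.C (w j) * Polynomial.C (l (Pi.single i 1)),
    ?_, ?_⟩
  · refine Polynomial.natDegree_sum_le_of_forall_le _ _ fun i _ => ?_
    refine Polynomial.natDegree_sum_le_of_forall_le _ _ fun j _ => ?_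
    refine (Polynomial.natDegree_mul_C_le _ _).trans ?_
    refine (Polynomial.natDegree_mul_C_le _ _).trans ?_
    refine (Polynomial.natDegree_prod_le _ _).trans ?_
    refine (Finset.sum_le_card_nsmul _ _ (Fintype.card ι * D)
      fun a _ => natDegree_adjugate_le P hP _ _).trans ?_
    simp
  · intro t
    have h1 : l (rad k (ev P t) w) = ∑ i, (rad k (ev P t) w i) * l (Pi.single i 1) := by
      rw [LinearMap.pi_apply_eq_sum_univ l (rad k (ev P t) w)]
      refine Finset.sum_congr rfl fun i _ => ?_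
      rw [smul_eq_mul]
      have h2 : (fun j => if i = j then (1 : ℝ) else 0) = Pi.single i 1 := by
        funext j
        rw [Pi.single_apply]
        by_cases h : i = j
        · simp [h]
        · simp [h, Ne.symm h]
      rw [h2]
    rw [h1, Polynomial.eval_finsetSum]
    refine Finset.sum_congr rfl fun i _ => ?_
    rw [Polynomial.eval_finsetSum]
    unfold rad
    rw [Matrix.mulVec, dotProduct, Finset.sum_mul]
    refine Finset.sum_congr rfl fun j _ => ?_
    rw [Polynomial.eval_mul, Polynomial.eval_mul, Polynomial.eval_C, Polynomial.eval_C,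
      Polynomial.eval_prod, tens_apply, ← ev_adjugate]
    rfl

/-! ### continuity -/

lemma continuous_rad (k : ℕ) (w : (Fin k → ι) → ℝ) :
    Continuous fun g : Matrix ι ι ℝ => rad k g w := by
  unfold rad
  refine Continuous.matrix_mulVec ?_ continuous_const
  refine continuous_matrix fun i j => ?_
  simp only [tens_apply, Matrix.transpose_apply]
  refine continuous_finsetProd _ fun a _ => ?_
  exact (continuous_id.matrix_adjugate).matrix_elem _ _

lemma continuous_Pi_rad (T : Tube ι) (w : (Fin T.k → ι) → ℝ) :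
    Continuous fun g : Matrix ι ι ℝ => T.Pi (rad T.k g w) :=
  (LinearMap.continuous_of_finiteDimensional T.Pi).comp (continuous_rad T.k w)

omit [Fintype ι] [DecidableEq ι] in
lemma continuous_ev (P : Matrix ι ι ℝ[X]) : Continuous fun t : ℝ => ev P t := by
  refine continuous_matrix fun i j => ?_
  exact (P i j).continuous

end QL.H97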